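import Pool.Agent.H606.GU.Stm

/-! TASK CON of project GU (helper606). -/

open MeasureTheory Filter Topology Finset
open Pool.Agent.H606.GU

namespace Pool.Agent.H643.GU.Conc

theorem desc_ge {m n : ℕ} (h : n ≤ m) : (m - n) ^ n ≤ m.descFactorial n := by
  rw [Nat.descFactorial_eq_prod_range]
  have e1 : (m - n) ^ n = ∏ _i ∈ range n, (m - n) := by rw [prod_const, card_range]
  rw [e1]
  refine prod_le_prod (fun _ _ => Nat.zero_le _) fun i hi => ?_
  have hi' : i < n := mem_range.mp hi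
  omega

/-- the pointwise bound -/
theorem pt {δ L : ℝ} {n : ℕ} (hn : 1 ≤ n) (hδ : 0 < δ) (hδ2 : δ ≤ 1 / 2) (hL : (n : ℝ) ≤ δ * L)
    (m : ℕ) : |(m : ℝ) - L| ≤ (1 + 6 * δ) * L - m +
      4 / ((1 + 2 * δ) * L) ^ (n - 1) * (m.descFactorial n : ℝ) := by
  have hn' : (1 : ℝ) ≤ n := by exact_mod_cast hn
  have hL0 : 0 < L := by
    by_contra h
    push Not at h
    nlinarith
  have hb : 0 < (1 + 2 * δ) * L := by positivity
  have hc : 0 ≤ 4 / ((1 + 2 * δ) * L) ^ (n - 1) * (m.descFactorial n : ℝ) := by positivity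
  by_cases h : (m : ℝ) < (1 + 3 * δ) * L
  · rw [abs_le]
    constructor
    · nlinarith
    · nlinarith
  · push Not at h
    have h1 : (1 + 2 * δ) * L ≤ (m : ℝ) - n := by nlinarith
    have h2 : (n : ℝ) ≤ m := by nlinarith
    have h2' : n ≤ m := by exact_mod_cast h2
    have h3 : (m : ℝ) ≤ 2 * ((m : ℝ) - n) := by nlinarith
    have h4 : ((m : ℝ) - n) ^ n ≤ (m.descFactorial n : ℝ) := by
      have := desc_ge h2'
      have e : ((m : ℝ) - n) = ((m - n : ℕ) : ℝ) := by rw [Nat.cast_sub h2']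
      rw [e]
      exact_mod_cast this
    have h5 : ((m : ℝ) - n) * ((1 + 2 * δ) * L) ^ (n - 1) ≤ ((m : ℝ) - n) ^ n := by
      obtain ⟨q, rfl⟩ : ∃ q, n = q + 1 := ⟨n - 1, by omega⟩
      rw [Nat.add_sub_cancel, pow_succ ((m : ℝ) - ((q + 1 : ℕ) : ℝ)) q, mul_comm]
      refine mul_le_mul_of_nonneg_right (pow_le_pow_left₀ hb.le h1 q) (by linarith)
    have h6 : (m : ℝ) ≤ 2 / ((1 + 2 * δ) * L) ^ (n - 1) * (m.descFactorial n : ℝ) := by
      have hp : 0 < ((1 + 2 * δ) * L) ^ (n - 1) := by positivity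
      rw [div_mul_eq_mul_div, le_div_iff₀ hp]
      calc (m : ℝ) * ((1 + 2 * δ) * L) ^ (n - 1) ≤
          2 * ((m : ℝ) - n) * ((1 + 2 * δ) * L) ^ (n - 1) :=
            mul_le_mul_of_nonneg_right h3 hp.le
        _ = 2 * (((m : ℝ) - n) * ((1 + 2 * δ) * L) ^ (n - 1)) := by ring
        _ ≤ 2 * (m.descFactorial n : ℝ) := mul_le_mul_of_nonneg_left (h5.trans h4) (by norm_num)
    have h7 : 4 / ((1 + 2 * δ) * L) ^ (n - 1) * (m.descFactorial n : ℝ) =
        2 * (2 / ((1 + 2 * δ) * L) ^ (n - 1) * (m.descFactorial n : ℝ)) := by ring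
    rw [h7]
    have h8 : 0 ≤ (m : ℝ) - L := by nlinarith
    rw [abs_of_nonneg h8]
    nlinarith

theorem t_CON (hAV : S_AV) (hTC : S_TC) (hINT : S_INT) (hUPC : S_UPC) (hSETS : S_SETS) : S_CON := by
  intro C hH η hη
  -- the parameters
  set δ : ℝ := min (1 / 2) (η / 16) with hδ
  have hδ0 : 0 < δ := lt_min (by norm_num) (by positivity)
  have hδ1 : δ ≤ 1 / 2 := min_le_left _ _
  have hδ2 : δ ≤ η / 16 := min_le_right _ _
  have hlim : Tendsto (fun n : ℕ => (1 + 2 * δ) * ((1 + δ) / (1 + 2 * δ)) ^ n) atTop (𝓝 ((1 + 2 * δ) * 0)) :=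
    (tendsto_pow_atTop_nhds_zero_of_lt_one (by positivity)
      (by rw [div_lt_one (by positivity)]; linarith)).const_mul _
  rw [mul_zero] at hlim
  obtain ⟨n0, hn0⟩ := (eventually_atTop.mp (hlim.eventually (gt_mem_nhds (show 0 < δ / 4 by positivity))))
  obtain ⟨n, hn, hU⟩ := hH δ hδ0 (max n0 1)
  have hn1 : 1 ≤ n := (le_max_right _ _).trans hn
  have hκ := hn0 n ((le_max_left _ _).trans hn)
  have hnR : (1 : ℝ) ≤ n := by exact_mod_cast hn1
  have : Nonempty (Fin n) := ⟨⟨0, by omega⟩⟩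
  refine ⟨n / δ, by positivity, fun L hL => ?_⟩
  have hL' : (n : ℝ) ≤ δ * L := by
    rw [div_le_iff₀ hδ0] at hL
    linarith
  have hL0 : 0 < L := lt_of_lt_of_le (by positivity) hL
  set g : ℝ := 4 / ((1 + 2 * δ) * L) ^ (n - 1) with hg
  have hg0 : 0 < g := by positivity
  have hcn : (0 : ℝ) ≤ (1 + δ) ^ n := by positivity
  have hs := (hSETS n L hn1 hL0).1 0
  have hs1 := (hSETS 1 L le_rfl hL0).1 0
  obtain ⟨⟨hmm0, hmm⟩, -⟩ := hINT n L hn1 hL0
  -- the main constant
  have hmain : g * ((1 + δ) ^ n * mm n L) ≤ L * δ := by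
    obtain ⟨q, rfl⟩ : ∃ q, n = q + 1 := ⟨n - 1, by omega⟩
    calc g * ((1 + δ) ^ (q + 1) * mm (q + 1) L) ≤ g * ((1 + δ) ^ (q + 1) * L ^ (q + 1)) :=
          mul_le_mul_of_nonneg_left (mul_le_mul_of_nonneg_left hmm hcn) hg0.le
      _ = 4 * L * ((1 + 2 * δ) * ((1 + δ) / (1 + 2 * δ)) ^ (q + 1)) := by
          rw [hg, Nat.add_sub_cancel, mul_pow, div_pow]
          have h1 : (1 + 2 * δ) ≠ 0 := by positivity
          have h2 : (1 + 2 * δ) ^ q ≠ 0 := by positivity
          field_simp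
          ring
      _ ≤ 4 * L * (δ / 4) := mul_le_mul_of_nonneg_left hκ.le (by positivity)
      _ = L * δ := by ring
  have hup := hUPC C (Fin n) ((1 + δ) ^ n) hcn hU (tile n L 0) hs.1 hs.2.1 hs.2.2 (η * L / (16 * g))
    (by positivity)
  have hN : ∀ᶠ T in atTop, 1 - η / 16 ≤ (C.N T : ℝ) / C.R T :=
    C.hN.eventually (le_mem_nhds (by linarith))
  have hRL : ∀ᶠ T in atTop, 64 * L / η ≤ C.R T := C.hR.eventually (eventually_ge_atTop _)
  filter_upwards [hup, hN, hRL, C.hR.eventually (eventually_gt_atTop 0)] with T h1 h2 h3 hR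
  have hav := hAV (Fin n) (C.N T) (C.x T) (C.R T) hR
  have hav1 := hAV (Fin 1) (C.N T) (C.x T) (C.R T) hR
  obtain ⟨tc1, -, -, -, -, tc6, -, tc8, -⟩ := hTC (C.N T) (C.x T) L hL0
  have i1 : Integrable (fun t => (tc (C.x T) L 0 t : ℝ)) := by
    have := hav1.1 _ hs1.1 hs1.2.1
    refine this.congr (Eventually.of_forall fun t => ?_)
    simp only
    rw [← tc1 1 0 t, Nat.descFactorial_one]
  have i2 : Integrable (fun t => ((tc (C.x T) L 0 t).descFactorial n : ℝ)) := by
    have := hav.1 _ hs.1 hs.2.1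
    refine this.congr (Eventually.of_forall fun t => ?_)
    simp only
    rw [← tc1 n 0 t]
  set I : Set ℝ := Set.Icc (-L) (C.R T) with hI
  have hvol : (volume.restrict I) Set.univ = ENNReal.ofReal (C.R T + L) := by
    rw [Measure.restrict_apply_univ, hI, Real.volume_Icc]
    congr 1
    ring
  have icst : ∀ c : ℝ, Integrable (fun _ : ℝ => c) (volume.restrict I) := by
    intro c
    have : IsFiniteMeasure (volume.restrict I) := ⟨by rw [hvol]; exact ENNReal.ofReal_lt_top⟩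
    exact integrable_const c
  have hcst : ∀ c : ℝ, ∫ _t in I, c = c * (C.R T + L) := by
    intro c
    rw [setIntegral_const, hI, Measure.real, Real.volume_Icc, ENNReal.toReal_ofReal (by linarith),
      smul_eq_mul]
    ring
  have htcI : ∫ t in I, (tc (C.x T) L 0 t : ℝ) = C.N T * L := by
    rw [← tc8 0]
    refine setIntegral_eq_integral_of_forall_compl_eq_zero fun t ht => ?_
    have := tc6 1 (C.R T) (C.hx T) 0 (by norm_num) t (by
      rw [Nat.cast_one, one_mul]; exact ht)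
    rw [this, Nat.cast_zero]
  have hdI : ∫ t in I, ((tc (C.x T) L 0 t).descFactorial n : ℝ) ≤
      C.R T * Av (C.x T) (C.R T) (tile n L 0) := by
    have e : ∫ t : ℝ, ((tc (C.x T) L 0 t).descFactorial n : ℝ) =
        C.R T * Av (C.x T) (C.R T) (tile n L 0) := by
      unfold Av
      rw [mul_div_cancel₀ _ hR.ne']
      refine integral_congr_ae (Eventually.of_forall fun t => ?_)
      simp only
      rw [← tc1 n 0 t]
    rw [← e]
    exact setIntegral_le_integral i2 (Eventually.of_forall fun t => Nat.cast_nonneg _)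
  have h4 : ∫ t in I, |(tc (C.x T) L 0 t : ℝ) - L| ≤
      ∫ t in I, ((1 + 6 * δ) * L - (tc (C.x T) L 0 t : ℝ) +
        g * ((tc (C.x T) L 0 t).descFactorial n : ℝ)) := by
    refine integral_mono_of_nonneg (Eventually.of_forall fun t => abs_nonneg _)
      (((icst _).sub i1.restrict).add (i2.restrict.const_mul _)) (Eventually.of_forall fun t => ?_)
    exact pt hn1 hδ0 hδ1 hL' _
  have h5 : ∫ t in I, ((1 + 6 * δ) * L - (tc (C.x T) L 0 t : ℝ) +
        g * ((tc (C.x T) L 0 t).descFactorial n : ℝ)) =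
      (1 + 6 * δ) * L * (C.R T + L) - C.N T * L +
        g * ∫ t in I, ((tc (C.x T) L 0 t).descFactorial n : ℝ) := by
    have j1 : Integrable (fun t => (1 + 6 * δ) * L - (tc (C.x T) L 0 t : ℝ)) (volume.restrict I) :=
      (icst _).sub i1.restrict
    have j2 : Integrable (fun t => g * ((tc (C.x T) L 0 t).descFactorial n : ℝ))
      (volume.restrict I) := i2.restrict.const_mul _
    rw [integral_add j1 j2, integral_sub (icst _) i1.restrict, hcst, htcI, integral_const_mul]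
  rw [h5] at h4
  rw [div_le_iff₀ hR]
  refine h4.trans ?_
  have h6 : g * ∫ t in I, ((tc (C.x T) L 0 t).descFactorial n : ℝ) ≤
      C.R T * (L * δ + η * L / 16) := by
    calc g * ∫ t in I, ((tc (C.x T) L 0 t).descFactorial n : ℝ) ≤
          g * (C.R T * Av (C.x T) (C.R T) (tile n L 0)) := mul_le_mul_of_nonneg_left hdI hg0.le
      _ ≤ g * (C.R T * ((1 + δ) ^ n * (∫ y in tile n L 0, rho y) + η * L / (16 * g))) :=
          mul_le_mul_of_nonneg_left (mul_le_mul_of_nonneg_left h1 hR.le) hg0.le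
      _ = C.R T * (g * ((1 + δ) ^ n * mm n L) + η * L / 16) := by
          unfold mm
          field_simp
      _ ≤ C.R T * (L * δ + η * L / 16) := by
          refine mul_le_mul_of_nonneg_left ?_ hR.le
          linarith
  rw [le_div_iff₀ hR] at h2
  have h7 : (1 - η / 16) * C.R T * L ≤ C.N T * L := mul_le_mul_of_nonneg_right h2 hL0.le
  have h8 : 64 * L ≤ C.R T * η := by rwa [div_le_iff₀ hη] at h3
  have h9 : (1 + 6 * δ) * L * L ≤ 4 * (L * L) := by
    have : 0 ≤ L * L := by positivity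
    nlinarith
  have h10 : 64 * (L * L) ≤ C.R T * η * L := by
    have := mul_le_mul_of_nonneg_right h8 hL0.le
    linarith
  have h11 : δ * (L * C.R T) ≤ η / 16 * (L * C.R T) :=
    mul_le_mul_of_nonneg_right hδ2 (by positivity)
  nlinarith

end Pool.Agent.H643.GU.Conc
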