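import Pool.Agent.H606.GU.Stm

/-! TASK FRED of project GU (helper606): the second derivative of the Fredholm determinant of the
sine kernel. -/

open MeasureTheory Filter Topology Finset
open Pool.Agent.H606.GU

namespace Pool.Agent.H800.GU.FRED

/-- the series with the coefficients `(-1)^k / k!` -/
noncomputable def SS (a : ℕ → ℝ → ℝ) (s : ℝ) : ℝ :=
  ∑' k : ℕ, (-1 : ℝ) ^ k / (k.factorial : ℝ) * a k s

lemma term_le (a : ℕ → ℝ → ℝ) (ha : ∀ k s, 0 ≤ s → |a k s| ≤ s ^ k) (k : ℕ) (s S : ℝ)
    (hs : 0 ≤ s) (hS : s ≤ S) :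
    ‖(-1 : ℝ) ^ k / (k.factorial : ℝ) * a k s‖ ≤ S ^ k / (k.factorial : ℝ) := by
  have hk : (0 : ℝ) < (k.factorial : ℝ) := by positivity
  rw [Real.norm_eq_abs, abs_mul, abs_div, abs_pow, abs_neg, abs_one, one_pow,
    abs_of_pos hk, one_div, inv_mul_eq_div]
  have h1 : |a k s| ≤ S ^ k := (ha k s hs).trans (pow_le_pow_left₀ hs hS k)
  gcongr

lemma summable_u (S : ℝ) : Summable (fun k : ℕ => S ^ k / (k.factorial : ℝ)) :=
  Real.summable_pow_div_factorial S

lemma summable_term (a : ℕ → ℝ → ℝ) (ha : ∀ k s, 0 ≤ s → |a k s| ≤ s ^ k) (s : ℝ)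
    (hs : 0 ≤ s) : Summable (fun k : ℕ => (-1 : ℝ) ^ k / (k.factorial : ℝ) * a k s) :=
  Summable.of_norm_bounded (summable_u s) (fun k => term_le a ha k s s hs le_rfl)

lemma SS_deriv (a b : ℕ → ℝ → ℝ) (ha : ∀ k s, 0 ≤ s → |a k s| ≤ s ^ k)
    (hb : ∀ k s, 0 ≤ s → |b k s| ≤ s ^ k)
    (hd : ∀ k s, 0 < s → HasDerivAt (a (k + 1)) (((k : ℝ) + 1) * b k s) s)
    (h0 : ∀ s t, a 0 s = a 0 t) (s : ℝ) (hs : 0 < s) :
    HasDerivAt (SS a) (-(SS b s)) s := by
  set g' : ℕ → ℝ → ℝ := fun n y => Nat.casesOn n 0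
    (fun k => -((-1 : ℝ) ^ k / (k.factorial : ℝ) * b k y)) with hg'
  set u : ℕ → ℝ := fun n => Nat.casesOn n 0 (fun k => (s + 1) ^ k / (k.factorial : ℝ)) with hu
  have hsu : Summable u := by
    rw [← summable_nat_add_iff 1]
    exact summable_u (s + 1)
  have key := hasDerivAt_tsum_of_isPreconnected (g := fun (n : ℕ) (y : ℝ) =>
      (-1 : ℝ) ^ n / (n.factorial : ℝ) * a n y) (g' := g') (u := u) (t := Set.Ioo 0 (s + 1))
    (y₀ := s) (y := s) hsu isOpen_Ioo isPreconnected_Ioo ?_ ?_ ⟨hs, by linarith⟩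
    (summable_term a ha s hs.le) ⟨hs, by linarith⟩
  · have e1 : ∑' n, g' n s = -(SS b s) := by
      have hsg : Summable (fun n => g' n s) := by
        rw [← summable_nat_add_iff 1]
        exact (summable_term b hb s hs.le).neg
      rw [hsg.tsum_eq_zero_add]
      have h00 : g' 0 s = 0 := rfl
      rw [h00, zero_add]
      simp only [hg']
      rw [tsum_neg]
      rfl
    rw [← e1]
    exact key
  · intro n y hy
    rcases n with _ | k
    · simp only [hg', pow_zero, Nat.factorial_zero, Nat.cast_one, div_one, one_mul]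
      have : a 0 = fun _ => a 0 0 := by
        funext z; exact h0 z 0
      rw [this]
      exact hasDerivAt_const y _
    · have h1 := (hd k y hy.1).const_mul ((-1 : ℝ) ^ (k + 1) / ((k + 1).factorial : ℝ))
      have e : (-1 : ℝ) ^ (k + 1) / ((k + 1).factorial : ℝ) * (((k : ℝ) + 1) * b k y) =
          g' (k + 1) y := by
        simp only [hg']
        rw [Nat.factorial_succ, pow_succ]
        push_cast
        have h2 : (k : ℝ) + 1 ≠ 0 := by positivity
        have h3 : (k.factorial : ℝ) ≠ 0 := by positivity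
        field_simp
      rw [← e]
      exact h1
  · intro n y hy
    rcases n with _ | k
    · simp [hg', hu]
    · simp only [hg', hu]
      rw [norm_neg]
      exact term_le b hb k y (s + 1) hy.1.le hy.2.le

lemma SS_cont (a : ℕ → ℝ → ℝ) (ha : ∀ k s, 0 ≤ s → |a k s| ≤ s ^ k)
    (hc : ∀ k, ContinuousOn (a k) (Set.Ici 0)) : ContinuousOn (SS a) (Set.Ici 0) := by
  intro s hs
  have h1 : ContinuousOn (SS a) (Set.Icc 0 (s + 1)) := by
    refine continuousOn_tsum (u := fun k => (s + 1) ^ k / (k.factorial : ℝ)) ?_ (summable_u _) ?_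
    · intro k
      exact continuousOn_const.mul ((hc k).mono Set.Icc_subset_Ici_self)
    · intro k y hy
      exact term_le a ha k y (s + 1) hy.1 hy.2
  have h2 : ContinuousWithinAt (SS a) (Set.Icc 0 (s + 1)) s := h1 s ⟨hs, by
    have : (0 : ℝ) ≤ s := hs
    linarith⟩
  refine h2.mono_of_mem_nhdsWithin ?_
  rw [mem_nhdsWithin]
  exact ⟨Set.Iio (s + 1), isOpen_Iio, by simp, fun y hy => ⟨hy.2, le_of_lt hy.1⟩⟩

/-! ### the cubes -/

/-- the cube `[0, s]^k` -/
def Q (k : ℕ) (s : ℝ) : Set (Fin k → ℝ) := Set.Icc (0 : Fin k → ℝ) (fun _ => s)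

lemma vol_Q (k : ℕ) (s : ℝ) (hs : 0 ≤ s) : (volume (Q k s)).toReal = s ^ k := by
  unfold Q
  have h := Real.volume_Icc_pi_toReal (a := (0 : Fin k → ℝ)) (b := fun _ => s) (fun _ => hs)
  rw [h]
  simp

lemma int_le (k : ℕ) (s : ℝ) (hs : 0 ≤ s) (f : (Fin k → ℝ) → ℝ) (hf : ∀ y, |f y| ≤ 1) :
    |∫ y in Q k s, f y| ≤ s ^ k := by
  have h1 : volume (Q k s) < ⊤ := by
    unfold Q; exact isCompact_Icc.measure_lt_top
  have h := norm_setIntegral_le_of_norm_le_const (f := f) (C := 1) h1
    (fun x _ => by rw [Real.norm_eq_abs]; exact hf x)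
  rw [Real.norm_eq_abs, one_mul] at h
  refine h.trans (le_of_eq ?_)
  exact vol_Q k s hs

lemma refl_Q (k : ℕ) (s : ℝ) (f : (Fin k → ℝ) → ℝ) :
    ∫ y in Q k s, f y = ∫ y in Q k s, f (fun i => s - y i) := by
  have hm : MeasurableSet (Q k s) := by unfold Q; exact measurableSet_Icc
  rw [← integral_indicator hm, ← integral_indicator hm,
    ← integral_sub_left_eq_self ((Q k s).indicator f) volume (fun _ => s)]
  congr 1
  funext y
  have h1 : ((fun _ => s) - y) = fun i => s - y i := rfl
  rw [h1]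
  by_cases hy : y ∈ Q k s
  · rw [Set.indicator_of_mem hy, Set.indicator_of_mem]
    unfold Q at hy ⊢
    constructor
    · intro i
      have := hy.2 i
      simp only [Pi.zero_apply]
      linarith
    · intro i
      have := hy.1 i
      simp only [Pi.zero_apply] at this
      change s - y i ≤ s
      linarith
  · rw [Set.indicator_of_notMem hy, Set.indicator_of_notMem]
    intro h
    apply hy
    unfold Q at h ⊢
    constructor
    · intro i
      have := h.2 i
      change s - y i ≤ s at this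
      simp only [Pi.zero_apply]
      linarith
    · intro i
      have := h.1 i
      simp only [Pi.zero_apply] at this
      change y i ≤ s
      linarith

lemma const_Q (s t : ℝ) (f : (Fin 0 → ℝ) → ℝ) : ∫ y in Q 0 s, f y = ∫ y in Q 0 t, f y := by
  have : Q 0 s = Q 0 t := by
    unfold Q
    congr 1
    exact Subsingleton.elim _ _
  rw [this]

/-! ### the correlation functions -/

lemma SK_neg (x : ℝ) : SK (-x) = SK x := by
  unfold SK
  rw [mul_neg, Real.sinc_neg]

lemma rho_neg {α : Type} [Fintype α] [DecidableEq α] (y : α → ℝ) :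
    rho (fun i => -y i) = rho y := by
  unfold rho
  congr 1
  ext i j
  simp only [KM, Matrix.of_apply]
  rw [← SK_neg (y i - y j)]
  congr 1
  ring

lemma rho_refl (hRHO : S_RHO) {α : Type} [Fintype α] [DecidableEq α] (y : α → ℝ) (s : ℝ) :
    rho (fun i => s - y i) = rho y := by
  have h := hRHO.2.2.1 α (fun i => -y i) (-s)
  rw [rho_neg] at h
  rw [← h]
  congr 1
  funext i
  ring

lemma sn_refl (k : ℕ) (s : ℝ) (u : Fin k → ℝ) :
    sn (fun i => s - u i) s = fun i => s - sn u 0 i := by
  funext i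
  unfold sn
  refine Fin.lastCases ?_ (fun j => ?_) i
  · simp
  · simp

lemma abs_rho_le (hFIS : S_FIS) {α : Type} [Fintype α] [DecidableEq α] (y : α → ℝ) :
    |rho y| ≤ 1 := by
  have h := hFIS.1 α y
  rw [abs_of_nonneg h.2.1]
  exact h.2.2

lemma continuous_sn (k : ℕ) (v : ℝ) : Continuous (fun u : Fin k → ℝ => sn u v) := by
  rw [continuous_pi_iff]
  intro i
  refine Fin.lastCases ?_ (fun j => ?_) i
  · simp only [sn, Fin.snoc_last]
    exact continuous_const
  · simp only [sn, Fin.snoc_castSucc]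
    exact continuous_apply j

/-- the extension of a permutation fixing the last coordinate -/
def ext {k : ℕ} (e : Equiv.Perm (Fin k)) : Equiv.Perm (Fin (k + 1)) where
  toFun := Fin.lastCases (Fin.last k) (fun i => (e i).castSucc)
  invFun := Fin.lastCases (Fin.last k) (fun i => (e.symm i).castSucc)
  left_inv := by
    intro i
    refine Fin.lastCases ?_ (fun j => ?_) i
    · simp
    · simp
  right_inv := by
    intro i
    refine Fin.lastCases ?_ (fun j => ?_) i
    · simp
    · simp

lemma sn_perm {k : ℕ} (e : Equiv.Perm (Fin k)) (u : Fin k → ℝ) (v : ℝ) :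
    sn (fun i => u (e i)) v = fun i => sn u v (ext e i) := by
  funext i
  unfold sn
  refine Fin.lastCases ?_ (fun j => ?_) i
  · simp [ext]
  · simp [ext]

/-- the three families of integrals -/
noncomputable def JJ (k : ℕ) (s : ℝ) : ℝ := ∫ y in Q k s, rho y
noncomputable def II (k : ℕ) (s : ℝ) : ℝ := ∫ u in Q k s, rho (sn u 0)
noncomputable def HH (k : ℕ) (s : ℝ) : ℝ := ∫ u in Q k s, rho (sn (sn u s) 0)

theorem t_FRED (hRHO : S_RHO) (hFIS : S_FIS) (hDER : S_DER) : S_FRED := by
  have bJ : ∀ k s, 0 ≤ s → |JJ k s| ≤ s ^ k := fun k s hs =>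
    int_le k s hs _ (fun y => abs_rho_le hFIS y)
  have bI : ∀ k s, 0 ≤ s → |II k s| ≤ s ^ k := fun k s hs =>
    int_le k s hs _ (fun y => abs_rho_le hFIS _)
  have bH : ∀ k s, 0 ≤ s → |HH k s| ≤ s ^ k := fun k s hs =>
    int_le k s hs _ (fun y => abs_rho_le hFIS _)
  have dJ : ∀ k s, 0 < s → HasDerivAt (JJ (k + 1)) (((k : ℝ) + 1) * II k s) s := by
    intro k s hs
    have h := hDER k rho (hRHO.1 _) (fun e y => hRHO.2.1 _ _ e y) s hs
    have e : ∫ u in Set.Icc (0 : Fin k → ℝ) (fun _ => s), rho (sn u s) = II k s := by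
      change ∫ u in Q k s, rho (sn u s) = ∫ u in Q k s, rho (sn u 0)
      rw [refl_Q k s (fun u => rho (sn u s))]
      congr 1
      funext u
      rw [sn_refl, rho_refl hRHO]
    rw [e] at h
    exact h
  have dI : ∀ k s, 0 < s → HasDerivAt (II (k + 1)) (((k : ℝ) + 1) * HH k s) s := by
    intro k s hs
    have h := hDER k (fun u => rho (sn u 0)) ((hRHO.1 _).comp (continuous_sn _ 0))
      (fun e y => by
        rw [sn_perm]
        exact hRHO.2.1 _ _ (ext e) (sn y 0)) s hs
    exact h
  have hEE : EE = SS JJ := rfl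
  have hGG : GG = SS II := rfl
  have dEE : ∀ s, 0 < s → HasDerivAt EE (-(GG s)) s := by
    intro s hs
    rw [hEE, hGG]
    exact SS_deriv JJ II bJ bI dJ (fun s t => const_Q s t _) s hs
  have dGG : ∀ s, 0 < s → HasDerivAt GG (-(SS HH s)) s := by
    intro s hs
    rw [hGG]
    exact SS_deriv II HH bI bH dI (fun s t => const_Q s t _) s hs
  have cI : ∀ k, ContinuousOn (II k) (Set.Ici 0) := by
    intro k
    rcases k with _ | k
    · have : II 0 = fun _ => II 0 0 := by
        funext s; exact const_Q s 0 _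
      rw [this]
      exact continuousOn_const
    · intro s hs
      rcases (show (0 : ℝ) ≤ s from hs).eq_or_lt with h | h
      · subst h
        have e0 : II (k + 1) 0 = 0 := by
          have := bI (k + 1) 0 le_rfl
          rw [zero_pow (Nat.succ_ne_zero k)] at this
          exact abs_nonpos_iff.mp this
        unfold ContinuousWithinAt
        rw [e0]
        have h1 : Tendsto (fun s : ℝ => s ^ (k + 1)) (𝓝[Set.Ici 0] 0) (𝓝 0) := by
          have : Tendsto (fun s : ℝ => s ^ (k + 1)) (𝓝[Set.Ici 0] 0) (𝓝 ((0 : ℝ) ^ (k + 1))) :=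
            ((continuous_pow (k + 1)).tendsto 0).mono_left nhdsWithin_le_nhds
          rwa [zero_pow (Nat.succ_ne_zero k)] at this
        refine squeeze_zero_norm' ?_ h1
        filter_upwards [self_mem_nhdsWithin] with t ht
        rw [Real.norm_eq_abs]
        exact bI (k + 1) t ht
      · exact (dI k s h).continuousAt.continuousWithinAt
  refine ⟨?_, ?_⟩
  · rw [hGG]
    exact SS_cont II bI cI
  · intro α β hα hαβ
    have dd : ∀ s, 0 < s → deriv (deriv EE) s = SS HH s := by
      intro s hs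
      have h1 : deriv EE =ᶠ[𝓝 s] fun t => -(GG t) := by
        filter_upwards [Ioi_mem_nhds hs] with t ht
        exact (dEE t ht).deriv
      rw [h1.deriv_eq]
      have h2 := (dGG s hs).neg
      rw [neg_neg] at h2
      exact h2.deriv
    have hF : ∀ s ∈ Set.uIcc α β, HasDerivAt (fun t => -(GG t)) (deriv (deriv EE) s) s := by
      intro s hs
      rw [Set.uIcc_of_le hαβ] at hs
      have hs0 : 0 < s := lt_of_lt_of_le hα hs.1
      rw [dd s hs0]
      have h2 := (dGG s hs0).neg
      rw [neg_neg] at h2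
      exact h2
    have hint : IntervalIntegrable (deriv (deriv EE)) volume α β := by
      rw [intervalIntegrable_iff_integrableOn_Icc_of_le hαβ]
      refine Measure.integrableOn_of_bounded (M := ∑' k : ℕ, β ^ k / (k.factorial : ℝ))
        (by simp) (measurable_deriv _).aestronglyMeasurable ?_
      rw [ae_restrict_iff' measurableSet_Icc]
      refine ae_of_all _ (fun s hs => ?_)
      have hs0 : 0 < s := lt_of_lt_of_le hα hs.1
      rw [dd s hs0]
      exact tsum_of_norm_bounded (summable_u β).hasSum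
        (fun k => term_le HH bH k s β hs0.le hs.2)
    rw [intervalIntegral.integral_eq_sub_of_hasDerivAt hF hint]
    ring

end Pool.Agent.H800.GU.FRED
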