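import Pool.Agent.H606.GU.Stm

/-! TASK GAPC of project GU (helper606): the gap counts from the correlations (Bonferroni). -/

open MeasureTheory Filter Topology Finset
open Pool.Agent.H606.GU

namespace Pool.Agent.H795.GU.GAPC

/-- Bonferroni's inequalities for a natural number. -/
theorem bonf (m K : ℕ) :
    |(if m = 0 then (1:ℝ) else 0) - ∑ k ∈ range K, (-1 : ℝ) ^ k * (m.choose k : ℝ)|
      ≤ (m.choose K : ℝ) := by
  rcases K with _ | K
  · simp only [range_zero, sum_empty, sub_zero, Nat.choose_zero_right, Nat.cast_one]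
    split_ifs <;> norm_num
  · rcases m with _ | m
    · have : ∑ k ∈ range (K+1), (-1 : ℝ) ^ k * (Nat.choose 0 k : ℝ) = 1 := by
        rw [Finset.sum_range_succ']
        simp
      rw [this]
      simp
    · have h := Int.alternating_sum_range_choose_eq_choose (n := m) (m := K)
      have h' : ∑ k ∈ range (K+1), (-1 : ℝ) ^ k * ((m+1).choose k : ℝ)
          = (-1)^K * (m.choose K : ℝ) := by
        exact_mod_cast congrArg (Int.cast : ℤ → ℝ) h
      rw [h']
      simp only [Nat.succ_ne_zero, if_false, zero_sub, abs_neg, abs_mul, abs_pow, abs_one,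
        one_pow, one_mul]
      rw [abs_of_nonneg (Nat.cast_nonneg _), Nat.choose_succ_succ]
      push_cast
      have : (0:ℝ) ≤ (m.choose (K+1) : ℝ) := Nat.cast_nonneg _
      linarith

open Classical in
/-- the later points within distance `s` -/
noncomputable def MM {N : ℕ} (x : Fin N → ℝ) (s : ℝ) (i : Fin N) : Finset (Fin N) :=
  univ.filter (fun j => i < j ∧ x j ≤ x i + s)

theorem mem_MM {N : ℕ} (x : Fin N → ℝ) (s : ℝ) (i j : Fin N) :
    j ∈ MM x s i ↔ i < j ∧ x j ≤ x i + s := by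
  classical
  simp [MM]

theorem gp_eq {N : ℕ} (x : Fin N → ℝ) (s : ℝ) :
    (gp x s : ℝ) = ∑ i : Fin N, if (MM x s i).card = 0 then (1:ℝ) else 0 := by
  classical
  have h : {i : Fin N | ∀ j : Fin N, i < j → x i + s < x j}
      = ((univ.filter (fun i => (MM x s i).card = 0) : Finset (Fin N)) : Set (Fin N)) := by
    ext i
    simp only [Set.mem_ofPred_eq, coe_filter, mem_univ, true_and, Finset.card_eq_zero]
    rw [Finset.eq_empty_iff_forall_notMem]
    constructor
    · intro h j hj
      rw [mem_MM] at hj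
      exact absurd (h j hj.1) (not_lt.mpr hj.2)
    · intro h j hj
      by_contra hc
      exact h j ((mem_MM x s i j).2 ⟨hj, not_lt.mp hc⟩)
  unfold gp
  rw [h, Set.ncard_coe_finset]
  simp

open Classical in
/-- the tuples of later points -/
noncomputable def TT {N : ℕ} (x : Fin N → ℝ) (s : ℝ) (k : ℕ) : Finset (Fin (k+1) → Fin N) :=
  univ.filter (fun σ => Function.Injective σ ∧ ∀ l : Fin k, σ (Fin.last k) < σ l.castSucc ∧
    x (σ l.castSucc) ≤ x (σ (Fin.last k)) + s)

theorem mem_TT {N : ℕ} (x : Fin N → ℝ) (s : ℝ) (k : ℕ) (σ : Fin (k+1) → Fin N) :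
    σ ∈ TT x s k ↔ Function.Injective σ ∧ ∀ l : Fin k, σ (Fin.last k) < σ l.castSucc ∧
      x (σ l.castSucc) ≤ x (σ (Fin.last k)) + s := by
  classical
  simp [TT]

theorem card_TT {N : ℕ} (x : Fin N → ℝ) (s : ℝ) (k : ℕ) :
    (TT x s k).card = ∑ i : Fin N, ((MM x s i).card).descFactorial k := by
  classical
  rw [Finset.card_eq_sum_card_fiberwise (f := fun σ : Fin (k+1) → Fin N => σ (Fin.last k))
    (t := univ) (fun _ _ => mem_univ _)]
  apply Finset.sum_congr rfl
  intro i _
  have h1 : (MM x s i).card.descFactorial k = Fintype.card (Fin k ↪ {j // j ∈ MM x s i}) := by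
    rw [Fintype.card_embedding_eq, Fintype.card_coe, Fintype.card_fin]
  rw [h1, ← Fintype.card_coe]
  apply Fintype.card_congr
  refine
    { toFun := fun σ => ⟨fun l => ⟨σ.1 l.castSucc, ?_⟩, ?_⟩
      invFun := fun f => ⟨Fin.snoc (α := fun _ => Fin N) (fun l => (f l).1) i, ?_⟩
      left_inv := ?_
      right_inv := ?_ }
  · have h := σ.2
    rw [Finset.mem_filter, mem_TT] at h
    rw [mem_MM]
    have h5 := h.1.2 l
    rw [h.2] at h5
    exact h5
  · intro l l' hl
    have h := σ.2
    rw [Finset.mem_filter, mem_TT] at h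
    have h2 : σ.1 l.castSucc = σ.1 l'.castSucc := congrArg Subtype.val hl
    exact Fin.castSucc_injective _ (h.1.1 h2)
  · rw [Finset.mem_filter, mem_TT]
    refine ⟨⟨?_, ?_⟩, ?_⟩
    · rw [Fin.snoc_injective_iff]
      refine ⟨?_, ?_⟩
      · intro l l' hl
        exact f.injective (Subtype.ext hl)
      · rintro ⟨l, hl⟩
        have h3 := (mem_MM x s i _).1 (f l).2
        have h4 : ((f l).1 : Fin N) = i := hl
        rw [h4] at h3
        exact lt_irrefl _ h3.1
    · intro l
      simp only [Fin.snoc_castSucc, Fin.snoc_last]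
      exact (mem_MM x s i _).1 (f l).2
    · simp
  · intro σ
    apply Subtype.ext
    have h := σ.2
    rw [Finset.mem_filter] at h
    funext l
    refine Fin.lastCases ?_ (fun l => ?_) l
    · simp only [Fin.snoc_last]
      exact h.2.symm
    · exact Fin.snoc_castSucc (α := fun _ => Fin N) i (fun l => σ.1 (Fin.castSucc l)) l
  · intro f
    ext l
    simp only [Function.Embedding.coeFn_mk, Fin.snoc_castSucc]

open Classical in
/-- the tuples in a box -/
noncomputable def FB {N d : ℕ} (x : Fin N → ℝ) (a b : Fin d → ℝ) : Finset (Fin (d+1) → Fin N) :=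
  univ.filter (fun σ => Function.Injective σ ∧
    ∀ i : Fin d, x (σ i.castSucc) - x (σ (Fin.last d)) ∈ Set.Icc (a i) (b i))

theorem mem_FB {N d : ℕ} (x : Fin N → ℝ) (a b : Fin d → ℝ) (σ : Fin (d+1) → Fin N) :
    σ ∈ FB x a b ↔ Function.Injective σ ∧
      ∀ i : Fin d, x (σ i.castSucc) - x (σ (Fin.last d)) ∈ Set.Icc (a i) (b i) := by
  classical
  simp [FB]

theorem bn_eq {N d : ℕ} (x : Fin N → ℝ) (a b : Fin d → ℝ) : bn x a b = (FB x a b).card := by
  classical
  have h : {s : Fin (d + 1) → Fin N | Function.Injective s ∧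
    ∀ i : Fin d, x (s i.castSucc) - x (s (Fin.last d)) ∈ Set.Icc (a i) (b i)}
      = (FB x a b : Set (Fin (d+1) → Fin N)) := by
    ext σ
    rw [Finset.mem_coe, mem_FB]
    rfl
  unfold bn
  rw [h, Set.ncard_coe_finset]

theorem TT_le {N k : ℕ} (x : Fin N → ℝ) (hx : Monotone x) (s : ℝ) :
    (TT x s k).card ≤ bn x (0 : Fin k → ℝ) (fun _ => s) := by
  classical
  rw [bn_eq]
  apply Finset.card_le_card
  intro σ hσ
  rw [mem_TT] at hσ
  rw [mem_FB]
  refine ⟨hσ.1, fun l => ⟨?_, ?_⟩⟩
  · have := hx (hσ.2 l).1.le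
    simpa using this
  · have := (hσ.2 l).2
    linarith

theorem le_TT {N k : ℕ} (x : Fin N → ℝ) (hx : Monotone x) (s : ℝ) :
    bn x (0 : Fin k → ℝ) (fun _ => s) ≤ (TT x s k).card +
      ∑ l : Fin k, bn x (0 : Fin k → ℝ) (Function.update (fun _ => s) l 0) := by
  classical
  simp only [bn_eq]
  have hsub : FB x (0 : Fin k → ℝ) (fun _ => s) ⊆ TT x s k ∪
      univ.biUnion (fun l : Fin k => FB x (0 : Fin k → ℝ) (Function.update (fun _ => s) l 0)) := by
    intro σ hσ
    rw [mem_FB] at hσ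
    rw [Finset.mem_union, mem_TT]
    by_cases h : ∀ l : Fin k, σ (Fin.last k) < σ l.castSucc
    · left
      refine ⟨hσ.1, fun l => ⟨h l, ?_⟩⟩
      have := (hσ.2 l).2
      linarith
    · right
      push Not at h
      obtain ⟨l, hl⟩ := h
      rw [Finset.mem_biUnion]
      refine ⟨l, mem_univ _, ?_⟩
      rw [mem_FB]
      refine ⟨hσ.1, fun i => ?_⟩
      by_cases hi : i = l
      · subst hi
        rw [Function.update_self]
        refine ⟨(hσ.2 i).1, ?_⟩
        have := hx hl
        linarith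
      · rw [Function.update_of_ne hi]
        exact hσ.2 i
  calc (FB x (0 : Fin k → ℝ) (fun _ => s)).card
      ≤ _ := Finset.card_le_card hsub
    _ ≤ _ := Finset.card_union_le _ _
    _ ≤ _ := by gcongr; exact Finset.card_biUnion_le

/-- Bonferroni for the number of gaps -/
theorem gp_bonf {N : ℕ} (x : Fin N → ℝ) (s : ℝ) (K : ℕ) :
    |(gp x s : ℝ) - ∑ k ∈ range K, (-1 : ℝ) ^ k * (((TT x s k).card : ℝ) / (k.factorial : ℝ))|
      ≤ ((TT x s K).card : ℝ) / (K.factorial : ℝ) := by
  have h1 : ∀ k, ((TT x s k).card : ℝ) / (k.factorial : ℝ)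
      = ∑ i : Fin N, ((MM x s i).card.choose k : ℝ) := by
    intro k
    rw [card_TT]
    push_cast
    rw [Finset.sum_div]
    apply Finset.sum_congr rfl
    intro i _
    rw [Nat.descFactorial_eq_factorial_mul_choose]
    push_cast
    have : (k.factorial : ℝ) ≠ 0 := by positivity
    field_simp
  simp only [h1]
  rw [gp_eq]
  have h2 : ∑ k ∈ range K, (-1 : ℝ) ^ k * ∑ i : Fin N, ((MM x s i).card.choose k : ℝ)
      = ∑ i : Fin N, ∑ k ∈ range K, (-1 : ℝ) ^ k * ((MM x s i).card.choose k : ℝ) := by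
    rw [Finset.sum_comm]
    apply Finset.sum_congr rfl
    intro k _
    rw [Finset.mul_sum]
  rw [h2, ← Finset.sum_sub_distrib]
  exact (Finset.abs_sum_le_sum_abs _ _).trans (Finset.sum_le_sum fun i _ => bonf _ _)

theorem bI_deg {k : ℕ} (s : ℝ) (l : Fin k) :
    bI (0 : Fin k → ℝ) (Function.update (fun _ => s) l 0) = 0 := by
  unfold bI
  apply setIntegral_measure_zero
  rw [Real.volume_Icc_pi]
  apply Finset.prod_eq_zero (mem_univ l)
  simp

theorem bI_le (hFIS : S_FIS) (k : ℕ) (s : ℝ) (hs : 0 ≤ s) :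
    |bI (0 : Fin k → ℝ) (fun _ => s)| ≤ s ^ k := by
  unfold bI
  have hv : volume (Set.Icc (0 : Fin k → ℝ) (fun _ => s)) < ⊤ := by
    rw [Real.volume_Icc_pi]
    exact ENNReal.prod_lt_top (fun i _ => ENNReal.ofReal_lt_top)
  have h := norm_setIntegral_le_of_norm_le_const (f := fun u : Fin k → ℝ => rho (sn u 0))
    (C := 1) hv (fun u _ => by
      have h := (hFIS.1 (Fin (k+1)) (sn u 0)).2
      rw [Real.norm_eq_abs, abs_of_nonneg h.1]
      exact h.2)
  have hle : (0 : Fin k → ℝ) ≤ (fun _ => s) := fun _ => hs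
  rw [Real.norm_eq_abs, one_mul, Measure.real, Real.volume_Icc_pi_toReal hle] at h
  simpa using h

theorem t_GAPC (_hRHO : S_RHO) (hFIS : S_FIS) : S_GAPC := by
  intro C hmono hLim s hs
  have hRpos : ∀ᶠ T in atTop, 0 < C.R T := C.hR.eventually_gt_atTop 0
  -- the limit of the tuples
  have hB : ∀ k : ℕ, Tendsto (fun T => ((TT (C.x T) s k).card : ℝ) / C.R T) atTop
      (𝓝 (bI (0 : Fin k → ℝ) (fun _ => s))) := by
    intro k
    have hu : Tendsto (fun T => (bn (C.x T) (0 : Fin k → ℝ) (fun _ => s) : ℝ) / C.R T) atTop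
      (𝓝 (bI (0 : Fin k → ℝ) (fun _ => s))) := hLim k 0 (fun _ => s)
    have hd : Tendsto (fun T => ∑ l : Fin k,
        (bn (C.x T) (0 : Fin k → ℝ) (Function.update (fun _ => s) l 0) : ℝ) / C.R T) atTop
        (𝓝 0) := by
      have : Tendsto (fun T => ∑ l : Fin k,
        (bn (C.x T) (0 : Fin k → ℝ) (Function.update (fun _ => s) l 0) : ℝ) / C.R T) atTop
        (𝓝 (∑ l : Fin k, bI (0 : Fin k → ℝ) (Function.update (fun _ => s) l 0))) := by
        apply tendsto_finsetSum
        intro l _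
        exact hLim k 0 _
      simpa [bI_deg] using this
    have hl := hu.sub hd
    rw [sub_zero] at hl
    refine tendsto_of_tendsto_of_tendsto_of_le_of_le' hl hu ?_ ?_
    · filter_upwards [hRpos] with T hT
      have h := le_TT (k := k) (C.x T) (hmono T) s
      have h' : (bn (C.x T) (0 : Fin k → ℝ) (fun _ => s) : ℝ) ≤ ((TT (C.x T) s k).card : ℝ) +
        ∑ l : Fin k, (bn (C.x T) (0 : Fin k → ℝ) (Function.update (fun _ => s) l 0) : ℝ) := by
        exact_mod_cast h
      rw [← Finset.sum_div, ← sub_div]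
      exact div_le_div_of_nonneg_right (by linarith) hT.le
    · filter_upwards [hRpos] with T hT
      have h := TT_le (k := k) (C.x T) (hmono T) s
      have h' : ((TT (C.x T) s k).card : ℝ) ≤ (bn (C.x T) (0 : Fin k → ℝ) (fun _ => s) : ℝ) := by
        exact_mod_cast h
      exact div_le_div_of_nonneg_right h' hT.le
  -- the coefficients
  set e : ℕ → ℝ := fun k => (-1 : ℝ) ^ k / (k.factorial : ℝ) *
    bI (0 : Fin k → ℝ) (fun _ => s) with he
  have heb : ∀ k, |e k| ≤ s ^ k / (k.factorial : ℝ) := by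
    intro k
    simp only [he]
    rw [abs_mul, abs_div, abs_pow, abs_neg, abs_one, one_pow, Nat.abs_cast, div_mul_eq_mul_div,
      one_mul]
    exact div_le_div_of_nonneg_right (bI_le hFIS k s hs) (by positivity)
  have hsum : Summable e :=
    Summable.of_norm_bounded (Real.summable_pow_div_factorial s) (fun k => by
      rw [Real.norm_eq_abs]; exact heb k)
  have hGG : HasSum e (GG s) := hsum.hasSum
  have hGGt := hGG.tendsto_sum_nat
  have hpow : Tendsto (fun k : ℕ => s ^ k / (k.factorial : ℝ)) atTop (𝓝 0) :=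
    (Real.summable_pow_div_factorial s).tendsto_atTop_zero
  -- conclusion
  rw [Metric.tendsto_atTop] at hGGt hpow
  rw [Metric.tendsto_nhds]
  intro ε hε
  obtain ⟨K1, hK1⟩ := hGGt (ε/4) (by linarith)
  obtain ⟨K2, hK2⟩ := hpow (ε/4) (by linarith)
  set K := max K1 K2 with hK
  have hk1 := hK1 K (le_max_left _ _)
  have hk2 := hK2 K (le_max_right _ _)
  have hpart : Tendsto (fun T => ∑ k ∈ range K, (-1 : ℝ) ^ k *
      (((TT (C.x T) s k).card : ℝ) / C.R T / (k.factorial : ℝ))) atTop
      (𝓝 (∑ k ∈ range K, e k)) := by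
    apply tendsto_finsetSum
    intro k _
    have h := ((hB k).div_const (k.factorial : ℝ)).const_mul ((-1 : ℝ) ^ k)
    have he' : e k = (-1 : ℝ) ^ k * (bI (0 : Fin k → ℝ) (fun _ => s) / (k.factorial : ℝ)) := by
      simp only [he]
      ring
    rw [he']
    exact h
  have hlast : Tendsto (fun T => ((TT (C.x T) s K).card : ℝ) / C.R T / (K.factorial : ℝ)) atTop
      (𝓝 (bI (0 : Fin K → ℝ) (fun _ => s) / (K.factorial : ℝ))) := (hB K).div_const _
  have hlastlt : bI (0 : Fin K → ℝ) (fun _ => s) / (K.factorial : ℝ) < ε / 4 := by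
    have h1 : bI (0 : Fin K → ℝ) (fun _ => s) / (K.factorial : ℝ) ≤ s ^ K / (K.factorial : ℝ) :=
      div_le_div_of_nonneg_right ((le_abs_self _).trans (bI_le hFIS K s hs)) (by positivity)
    rw [Real.dist_eq, sub_zero] at hk2
    exact h1.trans_lt ((le_abs_self _).trans_lt hk2)
  rw [Metric.tendsto_nhds] at hpart
  filter_upwards [hRpos, hpart (ε/4) (by linarith), hlast.eventually_lt_const hlastlt]
    with T hT h1 h2
  have hb := gp_bonf (C.x T) s K
  have h3 : |(gp (C.x T) s : ℝ) / C.R T - ∑ k ∈ range K, (-1 : ℝ) ^ k *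
      (((TT (C.x T) s k).card : ℝ) / C.R T / (k.factorial : ℝ))| < ε / 4 := by
    have h4 : (gp (C.x T) s : ℝ) / C.R T - ∑ k ∈ range K, (-1 : ℝ) ^ k *
      (((TT (C.x T) s k).card : ℝ) / C.R T / (k.factorial : ℝ)) =
      ((gp (C.x T) s : ℝ) - ∑ k ∈ range K, (-1 : ℝ) ^ k *
      (((TT (C.x T) s k).card : ℝ) / (k.factorial : ℝ))) / C.R T := by
      rw [sub_div, Finset.sum_div]
      congr 1
      apply Finset.sum_congr rfl
      intro k _
      ring
    rw [h4, abs_div, abs_of_pos hT]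
    refine lt_of_le_of_lt (div_le_div_of_nonneg_right hb hT.le) ?_
    calc ((TT (C.x T) s K).card : ℝ) / (K.factorial : ℝ) / C.R T
        = ((TT (C.x T) s K).card : ℝ) / C.R T / (K.factorial : ℝ) := by ring
      _ < ε / 4 := h2
  rw [Real.dist_eq] at h1 hk1 ⊢
  have e1 := abs_lt.mp h1
  have e2 := abs_lt.mp hk1
  have e3 := abs_lt.mp h3
  rw [abs_lt]
  constructor <;> linarith [e1.1, e1.2, e2.1, e2.2, e3.1, e3.2]

end Pool.Agent.H795.GU.GAPC
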