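import Pool.Agent.H606.GU.Stm

/-! TASK MOM of project GU (helper606). -/

open MeasureTheory Filter Topology Finset
open Pool.Agent.H606.GU

namespace Pool.Agent.H643.GU.MOM

theorem pow_le_desc {m n : ℕ} (h : n ≤ m) : m ^ n ≤ n ^ n * m.descFactorial n := by
  rw [Nat.descFactorial_eq_prod_range]
  have e1 : m ^ n = ∏ _i ∈ range n, m := by rw [prod_const, card_range]
  have e2 : n ^ n = ∏ _i ∈ range n, n := by rw [prod_const, card_range]
  rw [e1]
  conv_rhs => rw [e2]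
  rw [← prod_mul_distrib]
  refine prod_le_prod (fun _ _ => Nat.zero_le _) fun i hi => ?_
  have hi' : i < n := mem_range.mp hi
  obtain ⟨r, hr⟩ : ∃ r, m = i + r := ⟨m - i, by omega⟩
  have h1 : m - i = r := by omega
  rw [h1]
  obtain ⟨q, hq⟩ : ∃ q, n = q + 1 := ⟨n - 1, by omega⟩
  subst hq
  have h2 : i ≤ q := by omega
  have h3 : q + 1 ≤ i + r := by omega
  subst hr
  have h4 : i * (q + 1) ≤ q * (i + r) := by
    calc i * (q + 1) ≤ q * (q + 1) := Nat.mul_le_mul_right _ h2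
      _ ≤ q * (i + r) := Nat.mul_le_mul_left _ h3
  nlinarith

theorem pow_le (m n p : ℕ) (hp : 1 ≤ p) (hpn : p ≤ n) :
    m ^ p ≤ n ^ n * (m + m.descFactorial n) := by
  rcases Nat.eq_zero_or_pos m with h0 | h0
  · subst h0
    rw [zero_pow (by omega)]
    exact Nat.zero_le _
  · rcases lt_or_ge m n with h | h
    · have h1 : m ^ p ≤ n ^ n * m := by
        obtain ⟨q, rfl⟩ : ∃ q, p = q + 1 := ⟨p - 1, by omega⟩
        rw [pow_succ]
        refine Nat.mul_le_mul_right _ ?_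
        calc m ^ q ≤ n ^ q := Nat.pow_le_pow_left h.le _
          _ ≤ n ^ n := Nat.pow_le_pow_right (by omega) (by omega)
      exact h1.trans (Nat.mul_le_mul_left _ (Nat.le_add_right _ _))
    · calc m ^ p ≤ m ^ n := Nat.pow_le_pow_right h0 hpn
        _ ≤ n ^ n * m.descFactorial n := pow_le_desc h
        _ ≤ _ := Nat.mul_le_mul_left _ (Nat.le_add_left _ _)

theorem t_MOM (hAV : S_AV) (hTC : S_TC) (hINT : S_INT) (hUPC : S_UPC) (hSETS : S_SETS) : S_MOM := by
  intro C n c hn hc hU p hp hpn a ha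
  have : Nonempty (Fin n) := ⟨⟨0, by omega⟩⟩
  obtain ⟨⟨hmm0, -⟩, -⟩ := hINT n a hn ha
  refine ⟨(n : ℝ) ^ n * (2 * a + c * mm n a + 1), by positivity, ?_⟩
  have hs := (hSETS n a hn ha).1 0
  have hs1 := (hSETS 1 a le_rfl ha).1 0
  have hup := hUPC C (Fin n) c hc hU (tile n a 0) hs.1 hs.2.1 hs.2.2 1 one_pos
  have hN : ∀ᶠ T in atTop, (C.N T : ℝ) / C.R T ≤ 2 :=
    C.hN.eventually (ge_mem_nhds (by norm_num))
  filter_upwards [hup, hN, C.hR.eventually (eventually_gt_atTop 0)] with T h1 h2 hR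
  have hav := hAV (Fin n) (C.N T) (C.x T) (C.R T) hR
  have hav1 := hAV (Fin 1) (C.N T) (C.x T) (C.R T) hR
  obtain ⟨tc1, -, -, -, -, -, -, tc8, -⟩ := hTC (C.N T) (C.x T) a ha
  have i1 : Integrable (fun t => (tc (C.x T) a 0 t : ℝ)) := by
    have := hav1.1 _ hs1.1 hs1.2.1
    refine this.congr (Eventually.of_forall fun t => ?_)
    simp only
    rw [← tc1 1 0 t, Nat.descFactorial_one]
  have i2 : Integrable (fun t => ((tc (C.x T) a 0 t).descFactorial n : ℝ)) := by
    have := hav.1 _ hs.1 hs.2.1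
    refine this.congr (Eventually.of_forall fun t => ?_)
    simp only
    rw [← tc1 n 0 t]
  have h3 : ∫ t : ℝ, (tc (C.x T) a 0 t : ℝ) ^ p ≤
      ∫ t : ℝ, (n : ℝ) ^ n * ((tc (C.x T) a 0 t : ℝ) + ((tc (C.x T) a 0 t).descFactorial n : ℝ)) := by
    refine integral_mono_of_nonneg (Eventually.of_forall fun t => by positivity)
      ((i1.add i2).const_mul _) (Eventually.of_forall fun t => ?_)
    have := pow_le (tc (C.x T) a 0 t) n p hp hpn
    simp only
    exact_mod_cast this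
  have h4 : ∫ t : ℝ, (n : ℝ) ^ n * ((tc (C.x T) a 0 t : ℝ) + ((tc (C.x T) a 0 t).descFactorial n : ℝ)) =
      (n : ℝ) ^ n * ((C.N T : ℝ) * a + C.R T * Av (C.x T) (C.R T) (tile n a 0)) := by
    rw [integral_const_mul, integral_add i1 i2, tc8 0]
    have e : ∫ t : ℝ, ((tc (C.x T) a 0 t).descFactorial n : ℝ) =
        C.R T * Av (C.x T) (C.R T) (tile n a 0) := by
      unfold Av
      rw [mul_div_cancel₀ _ hR.ne']
      refine integral_congr_ae (Eventually.of_forall fun t => ?_)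
      simp only
      rw [← tc1 n 0 t]
    rw [e]
  rw [h4] at h3
  rw [div_le_iff₀ hR]
  refine h3.trans ?_
  rw [mul_assoc]
  refine mul_le_mul_of_nonneg_left ?_ (by positivity)
  rw [div_le_iff₀ hR] at h2
  have h5 : C.R T * Av (C.x T) (C.R T) (tile n a 0) ≤ C.R T * (c * mm n a + 1) :=
    mul_le_mul_of_nonneg_left h1 hR.le
  have h6 : (C.N T : ℝ) * a ≤ 2 * C.R T * a := mul_le_mul_of_nonneg_right h2 ha.le
  calc (C.N T : ℝ) * a + C.R T * Av (C.x T) (C.R T) (tile n a 0) ≤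
      2 * C.R T * a + C.R T * (c * mm n a + 1) := add_le_add h6 h5
    _ = (2 * a + c * mm n a + 1) * C.R T := by ring

end Pool.Agent.H643.GU.MOM
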