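import Pool.Agent.H606.GU.Stm

/-! TASK SETS of project GU (helper606). -/

open MeasureTheory Filter Topology Finset
open Pool.Agent.H606.GU

namespace Pool.Agent.H734.GU.SETS

/-- a product of half-open intervals -/
def bx {α : Type} (a : ℝ) (f : α → ℕ) : Set (α → ℝ) :=
  {y | ∀ x, (f x : ℝ) * a ≤ y x ∧ y x < ((f x : ℝ) + 1) * a}

theorem bx_spec {α : Type} [Fintype α] (a : ℝ) (f : α → ℕ) :
    MeasurableSet (bx a f) ∧ Bornology.IsBounded (bx a f) ∧ volume (frontier (bx a f)) = 0 := by
  have hpi : bx a f = Set.pi Set.univ fun x => Set.Ico ((f x : ℝ) * a) (((f x : ℝ) + 1) * a) := by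
    ext y
    simp [bx, Set.mem_pi]
  refine ⟨?_, ?_, ?_⟩
  · rw [hpi]
    exact MeasurableSet.univ_pi fun x => measurableSet_Ico
  · rw [hpi]
    refine (Metric.isBounded_Icc (fun x => (f x : ℝ) * a)
      (fun x => ((f x : ℝ) + 1) * a)).subset ?_
    intro y hy
    rw [Set.mem_univ_pi] at hy
    exact ⟨fun x => (hy x).1, fun x => (hy x).2.le⟩
  · apply Convex.addHaar_frontier
    rw [hpi]
    exact convex_pi fun x _ => convex_Ico _ _

theorem tile_eq (k : ℕ) (a : ℝ) (i : ℕ) : tile k a i = bx a fun _ => i := rfl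

theorem mix_eq (k : ℕ) (a : ℝ) (i i' : ℕ) :
    mix k a i i' = bx a (fun l : Fin (k + 1) => if l = Fin.last k then i' else i) := by
  ext y
  constructor
  · rintro ⟨h1, h2⟩ l
    refine Fin.lastCases ?_ (fun l => ?_) l
    · simpa using h2
    · simpa [Fin.castSucc_ne_last l] using h1 l
  · intro h
    refine ⟨fun l => ?_, ?_⟩
    · have := h l.castSucc
      simpa [Fin.castSucc_ne_last l] using this
    · have := h (Fin.last k)
      simpa using this

theorem two_eq (k : ℕ) (a : ℝ) (i i' : ℕ) :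
    two k a i i' = bx a (fun p : Fin 2 × Fin k => if p.1 = 0 then i else i') := by
  ext y
  constructor
  · rintro ⟨h1, h2⟩ ⟨p, l⟩
    by_cases hp : p = 0
    · subst hp
      simpa using h1 l
    · have hp1 : p = 1 := by omega
      subst hp1
      simpa using h2 l
  · intro h
    refine ⟨fun l => ?_, fun l => ?_⟩
    · simpa using h (0, l)
    · simpa using h (1, l)

theorem t_SETS : S_SETS := by
  intro k a _ _
  refine ⟨fun i => ?_, fun i i' => ?_, fun i i' => ?_⟩
  · rw [tile_eq]; exact bx_spec _ _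
  · rw [mix_eq]; exact bx_spec _ _
  · rw [two_eq]; exact bx_spec _ _

end Pool.Agent.H734.GU.SETS
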