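import Pool.Agent.H606.GU.Stm

/-! TASK SUM of project GU (helper606): the sum rule of the sine process. -/

set_option autoImplicit false

open MeasureTheory Filter Topology Finset
open Pool.Agent.H606.GU

namespace Pool.Agent.H721.GU.SUM

section det

variable {n : Type} [Fintype n] [DecidableEq n]

theorem det_rows (A : Matrix n n ℝ) (u v : n → ℝ) (s : Finset n) :
    (Matrix.of fun i j => A i j + (if i ∈ s then u i else 0) * v j).det =
      A.det + ∑ i ∈ s, u i * (A.updateRow i v).det := by
  induction s using Finset.induction_on with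
  | empty =>
    simp only [Finset.notMem_empty, if_false, zero_mul, add_zero, Finset.sum_empty]
    rfl
  | insert i0 s hi ih =>
    set B : Matrix n n ℝ := Matrix.of fun i j => A i j + (if i ∈ s then u i else 0) * v j with hB
    have h1 : (Matrix.of fun i j => A i j + (if i ∈ insert i0 s then u i else 0) * v j) =
        B.updateRow i0 (B i0 + u i0 • v) := by
      ext i j
      by_cases h : i = i0
      · subst h
        rw [Matrix.updateRow_self]
        simp [hB, hi]
      · rw [Matrix.updateRow_ne h]
        simp [hB, Finset.mem_insert, h]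
    have h2 : (B.updateRow i0 v).det = (A.updateRow i0 v).det := by
      refine Matrix.det_eq_of_forall_row_eq_smul_add_const
        (fun i => if i = i0 then 0 else (if i ∈ s then u i else 0)) i0 (by simp) fun i j => ?_
      by_cases h : i = i0
      · subst h
        rw [Matrix.updateRow_self, Matrix.updateRow_self]
        simp
      · rw [Matrix.updateRow_ne h, Matrix.updateRow_ne h, Matrix.updateRow_self]
        simp [hB, h]
    rw [h1, Matrix.det_updateRow_add, Matrix.updateRow_eq_self, Matrix.det_updateRow_smul, h2, ih,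
      Finset.sum_insert hi]
    ring

theorem det_rank_one (A : Matrix n n ℝ) (u v : n → ℝ) :
    (Matrix.of fun i j => A i j + u i * v j).det =
      A.det + ∑ i, ∑ j, u i * v j * A.adjugate j i := by
  have h := det_rows A u v Finset.univ
  simp only [Finset.mem_univ, if_true] at h
  rw [h]
  congr 1
  refine Finset.sum_congr rfl fun i _ => ?_
  rw [← Matrix.cramer_transpose_apply, Matrix.cramer_eq_adjugate_mulVec, Matrix.mulVec,
    dotProduct, Finset.mul_sum]
  refine Finset.sum_congr rfl fun j _ => ?_
  rw [← Matrix.adjugate_transpose, Matrix.transpose_apply]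
  ring

end det

theorem SK_neg (x : ℝ) : SK (-x) = SK x := by
  unfold SK
  rw [mul_neg, Real.sinc_neg]

theorem SK_sub (x y : ℝ) : SK (x - y) = SK (y - x) := by
  rw [← SK_neg, neg_sub]

theorem rho_sn {k : ℕ} (y : Fin k → ℝ) (v : ℝ) :
    rho y - rho (sn y v) = ∑ i, ∑ j, (KM y).adjugate j i * (SK (v - y i) * SK (v - y j)) := by
  have h1 : (KM (sn y v)).submatrix (finSumFinEquiv (m := k) (n := 1)) finSumFinEquiv =
      Matrix.fromBlocks (KM y) (Matrix.of fun i _ => SK (v - y i))
        (Matrix.of fun _ j => SK (v - y j)) 1 := by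
    have hl : ∀ i : Fin k, sn y v (finSumFinEquiv (m := k) (n := 1) (Sum.inl i)) = y i := by
      intro i
      rw [finSumFinEquiv_apply_left]
      exact Fin.snoc_castSucc (α := fun _ => ℝ) v y i
    have hr : ∀ i : Fin 1, sn y v (finSumFinEquiv (m := k) (n := 1) (Sum.inr i)) = v := by
      intro i
      rw [finSumFinEquiv_apply_right]
      have : Fin.natAdd k i = Fin.last k := by
        apply Fin.ext
        simp
      rw [this]
      exact Fin.snoc_last (α := fun _ => ℝ) v y
    ext i j
    rcases i with i | i <;> rcases j with j | j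
    · rw [Matrix.submatrix_apply, Matrix.fromBlocks_apply₁₁]
      unfold KM
      rw [Matrix.of_apply, Matrix.of_apply, hl, hl]
    · rw [Matrix.submatrix_apply, Matrix.fromBlocks_apply₁₂]
      unfold KM
      rw [Matrix.of_apply, Matrix.of_apply, hl, hr, SK_sub]
    · rw [Matrix.submatrix_apply, Matrix.fromBlocks_apply₂₁]
      unfold KM
      rw [Matrix.of_apply, Matrix.of_apply, hl, hr]
    · rw [Matrix.submatrix_apply, Matrix.fromBlocks_apply₂₂]
      have hij : i = j := Subsingleton.elim _ _
      subst hij
      unfold KM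
      rw [Matrix.of_apply, hr, sub_self, Matrix.one_apply_eq]
      unfold SK
      rw [mul_zero, Real.sinc_zero]
  have h2 : rho (sn y v) = (KM y - (Matrix.of fun (i : Fin k) (_ : Fin 1) => SK (v - y i)) *
      (Matrix.of fun (_ : Fin 1) (j : Fin k) => SK (v - y j))).det := by
    unfold rho
    rw [← Matrix.det_submatrix_equiv_self (finSumFinEquiv (m := k) (n := 1)) (KM (sn y v)), h1,
      Matrix.det_fromBlocks_one₂₂]
  have h3 : KM y - (Matrix.of fun (i : Fin k) (_ : Fin 1) => SK (v - y i)) *
      (Matrix.of fun (_ : Fin 1) (j : Fin k) => SK (v - y j)) =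
      Matrix.of fun i j => KM y i j + (-SK (v - y i)) * SK (v - y j) := by
    ext i j
    rw [Matrix.sub_apply, Matrix.mul_apply, Matrix.of_apply, Fin.sum_univ_one, Matrix.of_apply,
      Matrix.of_apply]
    ring
  rw [h2, h3, det_rank_one]
  unfold rho
  rw [sub_add_cancel_left, ← Finset.sum_neg_distrib]
  refine Finset.sum_congr rfl fun i _ => ?_
  rw [← Finset.sum_neg_distrib]
  refine Finset.sum_congr rfl fun j _ => ?_
  ring

theorem t_SUM (hREP : S_REP) (_hRHO : S_RHO) : S_SUM := by
  intro k y
  simp only [rho_sn]
  have hI : ∀ i j : Fin k, Integrable fun v =>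
      (KM y).adjugate j i * (SK (v - y i) * SK (v - y j)) := fun i j =>
    (hREP (y i) (y j)).1.const_mul _
  refine ⟨integrable_finset_sum _ fun i _ => integrable_finset_sum _ fun j _ => hI i j, ?_⟩
  rw [integral_finset_sum _ fun i _ => integrable_finset_sum _ fun j _ => hI i j]
  have h1 : ∀ i : Fin k, ∫ v, ∑ j, (KM y).adjugate j i * (SK (v - y i) * SK (v - y j)) =
      ∑ j, (KM y).adjugate j i * KM y i j := by
    intro i
    rw [integral_finset_sum _ fun j _ => hI i j]
    refine Finset.sum_congr rfl fun j _ => ?_
    rw [integral_const_mul, (hREP (y i) (y j)).2]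
    rfl
  rw [Finset.sum_congr rfl fun i _ => h1 i, Finset.sum_comm]
  have h2 : ∀ j : Fin k, ∑ i, (KM y).adjugate j i * KM y i j = rho y := by
    intro j
    rw [← Matrix.mul_apply, Matrix.adjugate_mul, Matrix.smul_apply, Matrix.one_apply_eq,
      smul_eq_mul, mul_one]
    rfl
  rw [Finset.sum_congr rfl fun j _ => h2 j, Finset.sum_const, Finset.card_univ, Fintype.card_fin,
    nsmul_eq_mul]

end Pool.Agent.H721.GU.SUM
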