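import Pool.Agent.H606.GU.Stm2

/-!
# Task LOWA of project GU2 (helper606): the lower half for bounded sets with null frontier
-/

open MeasureTheory Filter Topology Finset
open Pool.Agent.H606.GU

namespace Pool.Agent.H720.GU.LOWA

/-- the translation of all coordinates, as a homeomorphism -/
def tr (k : ℕ) (τ : ℝ) : (Fin k → ℝ) ≃ₜ (Fin k → ℝ) := Homeomorph.subRight (fun _ => τ)

theorem tr_apply (k : ℕ) (τ : ℝ) (y : Fin k → ℝ) : tr k τ y = fun i => y i - τ := rfl

theorem tr_mp (k : ℕ) (τ : ℝ) : MeasurePreserving (tr k τ) volume volume :=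
  measurePreserving_sub_right volume (fun _ : Fin k => τ)

/-- the translation of a set -/
def sh {k : ℕ} (τ : ℝ) (A : Set (Fin k → ℝ)) : Set (Fin k → ℝ) := {y | (fun i => y i - τ) ∈ A}

theorem sh_eq {k : ℕ} (τ : ℝ) (A : Set (Fin k → ℝ)) : sh τ A = tr k τ ⁻¹' A := rfl

theorem sh_meas {k : ℕ} (τ : ℝ) {A : Set (Fin k → ℝ)} (hA : MeasurableSet A) :
    MeasurableSet (sh τ A) := by
  rw [sh_eq]
  exact (tr k τ).continuous.measurable hA

theorem sh_frontier {k : ℕ} (τ : ℝ) {A : Set (Fin k → ℝ)} (hA : volume (frontier A) = 0) :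
    volume (frontier (sh τ A)) = 0 := by
  rw [sh_eq, ← Homeomorph.preimage_frontier,
    (tr_mp k τ).measure_preimage isClosed_frontier.measurableSet.nullMeasurableSet]
  exact hA

theorem sh_int {k : ℕ} (hRHO : S_RHO) (τ : ℝ) (A : Set (Fin k → ℝ)) :
    ∫ y in sh τ A, rho y = ∫ y in A, rho y := by
  have h1 := (tr_mp k τ).setIntegral_preimage_emb (tr k τ).measurableEmbedding
    (fun y => rho y) A
  rw [← sh_eq] at h1
  rw [← h1]
  congr 1
  funext y
  rw [tr_apply, hRHO.2.2.1]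

theorem t_LOWA (hAV : S_AV) (hUPC : S_UPC) (hSETS : S_SETS) (hRHO : S_RHO) (hFIS : S_FIS) :
    S_LOWA := by
  intro C k hk hUp hLow A hAm hAb hAf ε hε
  have : Nonempty (Fin k) := ⟨⟨0, by omega⟩⟩
  -- a bound for the points of `A`
  obtain ⟨M, hM⟩ := hAb.exists_norm_le
  obtain ⟨τ, hτ⟩ : ∃ τ : ℝ, τ = max M 0 := ⟨_, rfl⟩
  have hτ0 : 0 ≤ τ := hτ ▸ le_max_right _ _
  have hτM : M ≤ τ := hτ ▸ le_max_left _ _
  obtain ⟨L, hL⟩ : ∃ L : ℝ, L = 2 * τ + 1 := ⟨_, rfl⟩
  have hL0 : 0 < L := by linarith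
  have hsub : sh τ A ⊆ tile k L 0 := by
    intro y hy l
    have h1 : (fun i => y i - τ) ∈ A := hy
    have h2 := (norm_le_pi_norm (fun i => y i - τ) l).trans (hM _ h1)
    rw [Real.norm_eq_abs, abs_le] at h2
    have h3 : -M ≤ y l - τ := h2.1
    have h4 : y l - τ ≤ M := h2.2
    rw [Nat.cast_zero, zero_mul, zero_add, one_mul]
    constructor
    · linarith
    · linarith
  obtain ⟨hQm, hQb, hQf⟩ := (hSETS k L hk hL0).1 0
  have hA'm : MeasurableSet (sh τ A) := sh_meas τ hAm
  have hA'b : Bornology.IsBounded (sh τ A) := hQb.subset hsub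
  have hBm : MeasurableSet (tile k L 0 \ sh τ A) := hQm.diff hA'm
  have hBb : Bornology.IsBounded (tile k L 0 \ sh τ A) := hQb.subset Set.sdiff_subset
  have hBf : volume (frontier (tile k L 0 \ sh τ A)) = 0 := by
    have h1 : frontier (tile k L 0 \ sh τ A) ⊆ frontier (tile k L 0) ∪ frontier (sh τ A) := by
      rw [Set.sdiff_eq]
      refine (frontier_inter_subset _ _).trans ?_
      rw [frontier_compl]
      exact Set.union_subset_union Set.inter_subset_left Set.inter_subset_right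
    exact measure_mono_null h1 (measure_union_null hQf (sh_frontier τ hAf))
  have hdisj : Disjoint (sh τ A) (tile k L 0 \ sh τ A) := disjoint_sdiff_self_right
  have hunion : sh τ A ∪ (tile k L 0 \ sh τ A) = tile k L 0 := Set.union_sdiff_cancel hsub
  -- the integrals
  have hcont : Continuous (rho : (Fin k → ℝ) → ℝ) := hRHO.1 (Fin k)
  have hint : IntegrableOn (rho : (Fin k → ℝ) → ℝ) (tile k L 0) :=
    (hcont.continuousOn.integrableOn_compact hQb.isCompact_closure).mono_set subset_closure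
  have hI : mm k L = (∫ y in A, rho y) + ∫ y in tile k L 0 \ sh τ A, rho y := by
    rw [← sh_int hRHO τ A, mm, ← setIntegral_union hdisj hBm (hint.mono_set hsub)
      (hint.mono_set Set.sdiff_subset), hunion]
  have e1 := hLow L hL0 (ε / 2) (by positivity)
  have e2 := hUPC C (Fin k) 1 zero_le_one hUp _ hBm hBb hBf (ε / 2) (by positivity)
  have e3 := C.hR.eventually_gt_atTop 0
  filter_upwards [e1, e2, e3] with T h1 h2 h3
  obtain ⟨-, hav2, hav3, -, -⟩ := hAV (Fin k) (C.N T) (C.x T) (C.R T) h3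
  have h4 : Av (C.x T) (C.R T) (sh τ A) = Av (C.x T) (C.R T) A := hav2 A τ
  have h5 := hav3 _ _ hA'm hA'b hBm hBb hdisj
  rw [hunion, h4] at h5
  rw [one_mul] at h2
  linarith

end Pool.Agent.H720.GU.LOWA
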