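import Pool.Agent.H606.GU.Stm2

/-! TASK SMALL of project GU2 (helper606), by helper870. -/

open MeasureTheory Filter Topology Finset
open Pool.Agent.H606.GU

namespace Pool.Agent.H870.GU.SMALL

theorem sk_cont : Continuous SK := by
  unfold SK
  exact Real.continuous_sinc.comp (continuous_const.mul continuous_id)

theorem sk_zero : SK 0 = 1 := by
  unfold SK
  rw [mul_zero, Real.sinc_zero]

/-- the tile as a product -/
theorem tile_eq (n : ℕ) (b : ℝ) : tile n b 0 = Set.pi Set.univ (fun _ => Set.Ico (0 : ℝ) b) := by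
  ext y
  simp [tile]

theorem vol_tile (n : ℕ) (b : ℝ) (hb : 0 ≤ b) :
    volume (tile n b 0) < ⊤ ∧ volume.real (tile n b 0) = b ^ n := by
  have h : volume (tile n b 0) = ENNReal.ofReal (b ^ n) := by
    rw [tile_eq, Real.volume_pi_Ico]
    rw [Finset.prod_const, Finset.card_univ, Fintype.card_fin, sub_zero, ENNReal.ofReal_pow hb]
  refine ⟨by rw [h]; exact ENNReal.ofReal_lt_top, ?_⟩
  rw [Measure.real, h, ENNReal.toReal_ofReal (pow_nonneg hb n)]

/-- Fischer's inequality for the first two coordinates -/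
theorem rho_le (hRHO : S_RHO) (hFIS : S_FIS) (k : ℕ) (y : Fin (2 + k) → ℝ) :
    rho y ≤ 1 - SK (y (Fin.castAdd k 0) - y (Fin.castAdd k 1)) ^ 2 := by
  have h1 := hRHO.2.1 (Fin (2 + k)) (Fin 2 ⊕ Fin k) finSumFinEquiv y
  have h2 := hFIS.2.1 (Fin 2) (Fin k) (fun i => y (finSumFinEquiv i))
  have h3 := hRHO.2.2.2.2 (fun i : Fin 2 => y (finSumFinEquiv (Sum.inl i)))
  have h4 := (hFIS.1 (Fin k) (fun i => y (finSumFinEquiv (Sum.inr i)))).2.2
  have h5 := (hFIS.1 (Fin 2) (fun i => y (finSumFinEquiv (Sum.inl i)))).2.1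
  have h6 : rho (fun i : Fin 2 => y (finSumFinEquiv (Sum.inl i))) *
      rho (fun i : Fin k => y (finSumFinEquiv (Sum.inr i))) ≤
      rho (fun i : Fin 2 => y (finSumFinEquiv (Sum.inl i))) :=
    mul_le_of_le_one_right h5 h4
  rw [← h1]
  refine h2.trans (h6.trans (le_of_eq ?_))
  rw [h3]
  simp only [finSumFinEquiv_apply_left]

theorem t_SMALL (hRHO : S_RHO) (hFIS : S_FIS) : S_SMALL := by
  intro n a hn ha
  obtain ⟨k, rfl⟩ := Nat.exists_eq_add_of_le hn
  rw [Metric.tendsto_atTop]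
  intro ε hε
  have han : 0 < a ^ (2 + k) := pow_pos ha _
  -- the kernel near zero
  have hc : Continuous (fun x => 1 - SK x ^ 2) := continuous_const.sub (sk_cont.pow 2)
  have h0 : (fun x => 1 - SK x ^ 2) 0 < ε / (2 * a ^ (2 + k)) := by
    show 1 - SK 0 ^ 2 < _
    rw [sk_zero]
    norm_num
    positivity
  have h1 : ∀ᶠ x in 𝓝 (0 : ℝ), 1 - SK x ^ 2 < ε / (2 * a ^ (2 + k)) :=
    hc.continuousAt.eventually (Iio_mem_nhds h0)
  obtain ⟨b0, hb0, hball⟩ := Metric.eventually_nhds_iff.mp h1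
  obtain ⟨m0, hm0⟩ := exists_nat_gt (a / b0)
  refine ⟨m0, fun m hm => ?_⟩
  have hmpos : (0 : ℝ) < m := by
    have : (0 : ℝ) < a / b0 := div_pos ha hb0
    have h2 : (m0 : ℝ) ≤ m := by exact_mod_cast hm
    linarith
  have hb : a / m < b0 := by
    rw [div_lt_iff₀ hmpos]
    rw [div_lt_iff₀ hb0] at hm0
    have h2 : (m0 : ℝ) ≤ m := by exact_mod_cast hm
    nlinarith
  have hbpos : 0 < a / m := div_pos ha hmpos
  obtain ⟨hv1, hv2⟩ := vol_tile (2 + k) (a / m) hbpos.le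
  have hbd : ‖mm (2 + k) (a / m)‖ ≤ ε / (2 * a ^ (2 + k)) * volume.real (tile (2 + k) (a / m) 0) := by
    refine norm_setIntegral_le_of_norm_le_const hv1 fun y hy => ?_
    rw [Real.norm_of_nonneg (hFIS.1 _ y).2.1]
    refine (rho_le hRHO hFIS k y).trans (hball ?_).le
    have e0 := hy (Fin.castAdd k 0)
    have e1 := hy (Fin.castAdd k 1)
    rw [Nat.cast_zero, zero_mul, zero_add, one_mul] at e0 e1
    rw [Real.dist_eq, sub_zero, abs_lt]
    constructor <;> linarith [e0.1, e0.2, e1.1, e1.2]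
  rw [Real.dist_eq, sub_zero, abs_mul, abs_of_nonneg (pow_nonneg hmpos.le _)]
  rw [Real.norm_eq_abs, hv2] at hbd
  calc (m : ℝ) ^ (2 + k) * |mm (2 + k) (a / m)|
      ≤ (m : ℝ) ^ (2 + k) * (ε / (2 * a ^ (2 + k)) * (a / m) ^ (2 + k)) :=
        mul_le_mul_of_nonneg_left hbd (pow_nonneg hmpos.le _)
    _ = ε / 2 := by
        rw [div_pow]
        field_simp
    _ < ε := by linarith

end Pool.Agent.H870.GU.SMALL

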