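import Pool.Agent.H606.GU.Stm2

/-! TASK UI of project GU2 (helper606). -/

open MeasureTheory Filter Topology Finset
open Pool.Agent.H606.GU

namespace Pool.Agent.H686.GU.UI

theorem pow_le_desc {m n : ℕ} (h : n ≤ m) : m ^ n ≤ n ^ n * m.descFactorial n := by
  rw [Nat.descFactorial_eq_prod_range]
  have e1 : m ^ n = ∏ _i ∈ range n, m := by rw [prod_const, card_range]
  have e2 : n ^ n = ∏ _i ∈ range n, n := by rw [prod_const, card_range]
  rw [e1]
  conv_rhs => rw [e2]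
  rw [← prod_mul_distrib]
  refine prod_le_prod (fun _ _ => Nat.zero_le _) fun i hi => ?_
  have hi' : i < n := mem_range.mp hi
  obtain ⟨r, hr⟩ : ∃ r, m = i + r := ⟨m - i, by omega⟩
  have h1 : m - i = r := by omega
  rw [h1]
  obtain ⟨q, hq⟩ : ∃ q, n = q + 1 := ⟨n - 1, by omega⟩
  subst hq
  have h2 : i ≤ q := by omega
  have h3 : q + 1 ≤ i + r := by omega
  subst hr
  have h4 : i * (q + 1) ≤ q * (i + r) := by
    calc i * (q + 1) ≤ q * (q + 1) := Nat.mul_le_mul_right _ h2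
      _ ≤ q * (i + r) := Nat.mul_le_mul_left _ h3
  nlinarith

theorem pow_le_one (m n : ℕ) : m ^ n ≤ n ^ n * (1 + m.descFactorial n) := by
  rcases lt_or_ge m n with h | h
  · calc m ^ n ≤ n ^ n := Nat.pow_le_pow_left h.le _
      _ = n ^ n * 1 := by ring
      _ ≤ _ := Nat.mul_le_mul_left _ (Nat.le_add_right _ _)
  · exact (pow_le_desc h).trans (Nat.mul_le_mul_left _ (Nat.le_add_left _ _))

theorem pm (m q : ℕ) (hm : 1 ≤ m) (f : ℕ → ℕ) :
    (∑ i ∈ range m, (f i : ℝ)) ^ (q + 1) ≤ (m : ℝ) ^ q * ∑ i ∈ range m, (f i : ℝ) ^ (q + 1) := by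
  have hm' : (0 : ℝ) < m := by exact_mod_cast hm
  have h := Real.pow_arith_mean_le_arith_mean_pow (range m) (fun _ => (m : ℝ)⁻¹)
    (fun i => (f i : ℝ)) (fun i _ => by positivity)
    (by rw [sum_const, card_range, nsmul_eq_mul]; exact mul_inv_cancel₀ hm'.ne')
    (fun i _ => Nat.cast_nonneg _) (q + 1)
  rw [← mul_sum, ← mul_sum, mul_pow] at h
  have h2 := mul_le_mul_of_nonneg_left h (show (0 : ℝ) ≤ (m : ℝ) ^ (q + 1) by positivity)
  have e1 : (m : ℝ) ^ (q + 1) * ((m : ℝ)⁻¹ ^ (q + 1) * (∑ i ∈ range m, (f i : ℝ)) ^ (q + 1)) =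
      (∑ i ∈ range m, (f i : ℝ)) ^ (q + 1) := by
    rw [← mul_assoc, ← mul_pow, mul_inv_cancel₀ hm'.ne', one_pow, one_mul]
  have e2 : (m : ℝ) ^ (q + 1) * ((m : ℝ)⁻¹ * ∑ i ∈ range m, (f i : ℝ) ^ (q + 1)) =
      (m : ℝ) ^ q * ∑ i ∈ range m, (f i : ℝ) ^ (q + 1) := by
    rw [← mul_assoc, pow_succ, mul_assoc ((m : ℝ) ^ q), mul_inv_cancel₀ hm'.ne', mul_one]
  rwa [e1, e2] at h2

/-- the pointwise inequality -/
theorem ptw (m n : ℕ) (hm : 1 ≤ m) (hn : 1 ≤ n) (f : ℕ → ℕ) (A : ℝ) (hA : 0 < A) :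
    (if A ≤ (∑ i ∈ range m, (f i : ℝ)) then (∑ i ∈ range m, (f i : ℝ)) ^ n else 0) ≤
      (m : ℝ) ^ n * (n : ℝ) ^ n * (1 / A) * (∑ i ∈ range m, (f i : ℝ)) +
      (m : ℝ) ^ (n - 1) * (n : ℝ) ^ n * ∑ i ∈ range m, ((f i).descFactorial n : ℝ) := by
  have h0 : 0 ≤ ∑ i ∈ range m, (f i : ℝ) := sum_nonneg fun i _ => Nat.cast_nonneg _
  have h1 : 0 ≤ ∑ i ∈ range m, ((f i).descFactorial n : ℝ) :=
    sum_nonneg fun i _ => Nat.cast_nonneg _
  split_ifs with h
  · obtain ⟨q, rfl⟩ : ∃ q, n = q + 1 := ⟨n - 1, by omega⟩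
    rw [Nat.add_sub_cancel]
    have e1 := pm m q hm f
    have e2 : ∑ i ∈ range m, (f i : ℝ) ^ (q + 1) ≤
        ∑ i ∈ range m, (((q + 1 : ℕ) : ℝ) ^ (q + 1) * (1 + ((f i).descFactorial (q + 1) : ℝ))) := by
      refine sum_le_sum fun i _ => ?_
      have := pow_le_one (f i) (q + 1)
      exact_mod_cast this
    rw [← mul_sum, sum_add_distrib, sum_const, card_range, nsmul_eq_mul, mul_one] at e2
    have e3 : 1 ≤ 1 / A * ∑ i ∈ range m, (f i : ℝ) := by
      rw [one_div, inv_mul_eq_div, le_div_iff₀ hA, one_mul]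
      exact h
    calc (∑ i ∈ range m, (f i : ℝ)) ^ (q + 1) ≤
        (m : ℝ) ^ q * ∑ i ∈ range m, (f i : ℝ) ^ (q + 1) := e1
      _ ≤ (m : ℝ) ^ q * (((q + 1 : ℕ) : ℝ) ^ (q + 1) *
          (m + ∑ i ∈ range m, ((f i).descFactorial (q + 1) : ℝ))) :=
        mul_le_mul_of_nonneg_left e2 (by positivity)
      _ = (m : ℝ) ^ (q + 1) * ((q + 1 : ℕ) : ℝ) ^ (q + 1) * 1 +
          (m : ℝ) ^ q * ((q + 1 : ℕ) : ℝ) ^ (q + 1) *
            ∑ i ∈ range m, ((f i).descFactorial (q + 1) : ℝ) := by ring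
      _ ≤ (m : ℝ) ^ (q + 1) * ((q + 1 : ℕ) : ℝ) ^ (q + 1) *
          (1 / A * ∑ i ∈ range m, (f i : ℝ)) +
          (m : ℝ) ^ q * ((q + 1 : ℕ) : ℝ) ^ (q + 1) *
            ∑ i ∈ range m, ((f i).descFactorial (q + 1) : ℝ) := by
        gcongr
      _ = _ := by ring
  · positivity

theorem t_UI (hAV : S_AV) (hTC : S_TC) (hINT : S_INT) (hUPC : S_UPC) (hSETS : S_SETS)
    (hSMALL : S_SMALL) : S_UI := by
  intro C n c hn hc hU a ha ε hε
  have hn1 : 1 ≤ n := by omega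
  have : Nonempty (Fin n) := ⟨⟨0, by omega⟩⟩
  have hnp : (0 : ℝ) < (n : ℝ) ^ n := by positivity
  -- choice of `m`
  obtain ⟨m, hm1, hm2⟩ : ∃ m : ℕ, 1 ≤ m ∧
      (m : ℝ) ^ n * (n : ℝ) ^ n * (c * mm n (a / m)) ≤ ε / 3 := by
    have h1 := (hSMALL n a hn ha).eventually
      (gt_mem_nhds (show (0 : ℝ) < ε / (3 * (c + 1) * (n : ℝ) ^ n) by positivity))
    obtain ⟨m, hm, hm'⟩ := ((eventually_ge_atTop 1).and h1).exists
    refine ⟨m, hm, ?_⟩
    have hm0 : (0 : ℝ) < m := by exact_mod_cast hm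
    have hmm := ((hINT n (a / m) hn1 (by positivity)).1).1
    rw [lt_div_iff₀ (by positivity)] at hm'
    have h3 : (m : ℝ) ^ n * (n : ℝ) ^ n * (c * mm n (a / m)) ≤
        (m : ℝ) ^ n * (n : ℝ) ^ n * ((c + 1) * mm n (a / m)) := by
      gcongr
      linarith
    nlinarith
  have hm0 : (0 : ℝ) < m := by exact_mod_cast hm1
  set b : ℝ := a / m with hb
  have hb0 : 0 < b := by positivity
  have hbm : (m : ℝ) * b = a := by rw [hb]; field_simp
  set P : ℝ := (m : ℝ) ^ n * (n : ℝ) ^ n with hP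
  have hP0 : 0 < P := by positivity
  refine ⟨P * (2 * a) * 3 / ε, by positivity, ?_⟩
  set A : ℝ := P * (2 * a) * 3 / ε with hA
  have hA0 : 0 < A := by positivity
  have hs := fun i => (hSETS n b hn1 hb0).1 i
  have hs1 := (hSETS 1 a le_rfl ha).1 0
  have hup := hUPC C (Fin n) c hc hU (tile n b 0) (hs 0).1 (hs 0).2.1 (hs 0).2.2
    (ε / (3 * P)) (by positivity)
  have hN : ∀ᶠ T in atTop, (C.N T : ℝ) / C.R T ≤ 2 :=
    C.hN.eventually (ge_mem_nhds (by norm_num))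
  filter_upwards [hup, hN, C.hR.eventually (eventually_gt_atTop 0)] with T h1 h2 hR
  have hav := hAV (Fin n) (C.N T) (C.x T) (C.R T) hR
  have hav1 := hAV (Fin 1) (C.N T) (C.x T) (C.R T) hR
  obtain ⟨tc1, -, -, -, -, -, -, tc8, -⟩ := hTC (C.N T) (C.x T) a ha
  obtain ⟨tc1', -, -, -, -, -, -, -, tc9⟩ := hTC (C.N T) (C.x T) b hb0
  have i1 : Integrable (fun t => (tc (C.x T) a 0 t : ℝ)) := by
    have := hav1.1 _ hs1.1 hs1.2.1
    refine this.congr (Eventually.of_forall fun t => ?_)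
    simp only
    rw [← tc1 1 0 t, Nat.descFactorial_one]
  have i2 : ∀ i, Integrable (fun t => ((tc (C.x T) b i t).descFactorial n : ℝ)) := by
    intro i
    have := hav.1 _ (hs i).1 (hs i).2.1
    refine this.congr (Eventually.of_forall fun t => ?_)
    simp only
    rw [← tc1' n i t]
  have i3 : Integrable (fun t => ∑ i ∈ range m, ((tc (C.x T) b i t).descFactorial n : ℝ)) :=
    integrable_finsetSum _ fun i _ => i2 i
  have hNN : ∀ t, (tc (C.x T) a 0 t : ℝ) = ∑ i ∈ range m, (tc (C.x T) b i t : ℝ) := by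
    intro t
    have := tc9 m t
    rw [hbm] at this
    rw [← this]
    rfl
  have h3 : ∫ t : ℝ, (if A ≤ (tc (C.x T) a 0 t : ℝ) then (tc (C.x T) a 0 t : ℝ) ^ n else 0) ≤
      ∫ t : ℝ, (P * (1 / A) * (tc (C.x T) a 0 t : ℝ) + (m : ℝ) ^ (n - 1) * (n : ℝ) ^ n *
        ∑ i ∈ range m, ((tc (C.x T) b i t).descFactorial n : ℝ)) := by
    refine integral_mono_of_nonneg (Eventually.of_forall fun t => ?_)
      ((i1.const_mul _).add (i3.const_mul _)) (Eventually.of_forall fun t => ?_)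
    · simp only [Pi.zero_apply]
      split_ifs <;> positivity
    · simp only
      rw [hNN t]
      exact ptw m n hm1 hn1 (fun i => tc (C.x T) b i t) A hA0
  have h4 : ∀ i, ∫ t : ℝ, ((tc (C.x T) b i t).descFactorial n : ℝ) =
      C.R T * Av (C.x T) (C.R T) (tile n b 0) := by
    intro i
    have e0 : tile n b i = {y | (fun l => y l - (i : ℝ) * b) ∈ tile n b 0} := by
      ext y
      simp only [tile, Set.mem_setOf_eq]
      refine forall_congr' fun l => ?_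
      push_cast
      constructor
      · rintro ⟨h5, h6⟩
        constructor <;> linarith
      · rintro ⟨h5, h6⟩
        constructor <;> linarith
    rw [← hav.2.1 (tile n b 0) ((i : ℝ) * b), ← e0]
    unfold Av
    rw [mul_div_cancel₀ _ hR.ne']
    refine integral_congr_ae (Eventually.of_forall fun t => ?_)
    simp only
    rw [← tc1' n i t]
  have h5 : ∫ t : ℝ, (P * (1 / A) * (tc (C.x T) a 0 t : ℝ) + (m : ℝ) ^ (n - 1) * (n : ℝ) ^ n *
        ∑ i ∈ range m, ((tc (C.x T) b i t).descFactorial n : ℝ)) =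
      P * (1 / A) * ((C.N T : ℝ) * a) + (m : ℝ) ^ (n - 1) * (n : ℝ) ^ n *
        (m * (C.R T * Av (C.x T) (C.R T) (tile n b 0))) := by
    rw [integral_add (i1.const_mul _) (i3.const_mul _), integral_const_mul, integral_const_mul,
      tc8 0, integral_finsetSum _ fun i _ => i2 i]
    simp_rw [h4]
    rw [sum_const, card_range, nsmul_eq_mul]
  rw [h5] at h3
  rw [div_le_iff₀ hR]
  refine h3.trans ?_
  rw [div_le_iff₀ hR] at h2
  have h6 : P * (1 / A) * ((C.N T : ℝ) * a) ≤ ε / 3 * C.R T := by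
    have h7 : P * (1 / A) * ((C.N T : ℝ) * a) ≤ P * (1 / A) * (2 * C.R T * a) := by gcongr
    refine h7.trans (le_of_eq ?_)
    rw [hA]
    field_simp
  have h8 : (m : ℝ) ^ (n - 1) * (n : ℝ) ^ n * (m * (C.R T * Av (C.x T) (C.R T) (tile n b 0))) ≤
      (ε / 3 + ε / 3) * C.R T := by
    have e3 : (m : ℝ) ^ (n - 1) * (n : ℝ) ^ n *
        (m * (C.R T * Av (C.x T) (C.R T) (tile n b 0))) =
        P * Av (C.x T) (C.R T) (tile n b 0) * C.R T := by
      have : (m : ℝ) ^ n = (m : ℝ) ^ (n - 1) * m := by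
        rw [← pow_succ, Nat.sub_add_cancel hn1]
      rw [hP, this]; ring
    rw [e3]
    refine mul_le_mul_of_nonneg_right ?_ hR.le
    have h9 : P * Av (C.x T) (C.R T) (tile n b 0) ≤ P * (c * mm n b + ε / (3 * P)) :=
      mul_le_mul_of_nonneg_left h1 hP0.le
    refine h9.trans ?_
    have e4 : P * (ε / (3 * P)) = ε / 3 := by field_simp
    rw [mul_add, e4]
    linarith
  calc _ ≤ ε / 3 * C.R T + (ε / 3 + ε / 3) * C.R T := add_le_add h6 h8
    _ = ε * C.R T := by ring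

end Pool.Agent.H686.GU.UI
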