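import Pool.Agent.H606.GU.Stm

/-! TASK GAPZ of project GU (helper606): the spacing law of a sequence from the numbers of the
gaps of the normalised configurations. -/

open MeasureTheory Filter Topology Finset
open Pool.Agent.H606.GU

namespace Pool.Agent.H632.GU.GAPZ

/-- the normalisation -/
noncomputable def RR (T : ℝ) : ℝ := T / (2 * Real.pi) * Real.log T

/-- the normalised gap -/
noncomputable def dd (S : Sq) (n : ℕ) : ℝ :=
  (S.g (n + 1) - S.g n) / (2 * Real.pi) * Real.log (S.g n / (2 * Real.pi))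

/-- the number of the gaps larger than `s` -/
noncomputable def DC (S : Sq) (s : ℝ) (N : ℕ) : ℕ := {n : ℕ | n < N ∧ s < dd S n}.ncard

theorem tpp : (0 : ℝ) < 2 * Real.pi := by positivity

theorem RR_pos {T : ℝ} (hT : 2 ≤ T) : 0 < RR T := by
  have h1 : 0 < Real.log T := Real.log_pos (by linarith)
  have h2 : 0 < T := by linarith
  unfold RR
  have := tpp
  positivity

theorem tendsto_g (S : Sq) : Tendsto S.g atTop atTop := by
  refine tendsto_atTop.2 fun b => ?_
  filter_upwards [eventually_ge_atTop (S.cN b)] with n hn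
  by_contra h
  push Not at h
  exact absurd ((S.hc n b).1 h.le) (not_lt.2 hn)

theorem L1 (S : Sq) {η : ℝ} (hη : 0 < η) :
    Tendsto (fun T : ℝ => (S.cN (η * T) : ℝ) / RR T) atTop (𝓝 η) := by
  have h1 : Tendsto (fun T : ℝ => η * T) atTop atTop := tendsto_id.const_mul_atTop hη
  have h2 : Tendsto (fun T => (S.cN (η * T) : ℝ) / RR (η * T)) atTop (𝓝 1) := S.asy.comp h1
  have h3 : Tendsto (fun T : ℝ => Real.log η / Real.log T + 1) atTop (𝓝 1) := by
    have := (tendsto_const_nhds (x := Real.log η)).div_atTop Real.tendsto_log_atTop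
    simpa using this.add_const 1
  have h4 : Tendsto (fun T : ℝ => (S.cN (η * T) : ℝ) / RR (η * T) *
      (η * (Real.log η / Real.log T + 1))) atTop (𝓝 (1 * (η * 1))) := h2.mul (h3.const_mul η)
  rw [one_mul, mul_one] at h4
  refine h4.congr' ?_
  filter_upwards [eventually_gt_atTop 1, h1.eventually (eventually_gt_atTop 1)] with T hT hT2
  have e1 := Real.log_pos hT
  have e2 := Real.log_pos hT2
  have e3 : 0 < T := by linarith
  have e4 := tpp
  unfold RR
  have e5 : Real.log (η * T) = Real.log η + Real.log T := Real.log_mul hη.ne' e3.ne'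
  have e6 : Real.log η / Real.log T + 1 = Real.log (η * T) / Real.log T := by
    rw [e5, add_div, div_self e1.ne']
  rw [e6]
  field_simp

theorem cN_le (S : Sq) (N : ℕ) {η : ℝ} (h1 : η < 1) : S.cN (η * S.g N) ≤ N := by
  by_contra h
  push Not at h
  have := (S.hc N _).2 h
  have h2 := S.pos N
  nlinarith

theorem lt_cN (S : Sq) (N : ℕ) : N < S.cN (S.g N) := (S.hc N _).1 le_rfl

theorem L2 (S : Sq) : Tendsto (fun N : ℕ => (N : ℝ) / RR (S.g N)) atTop (𝓝 1) := by
  have hg := tendsto_g S
  refine tendsto_order.2 ⟨fun a ha => ?_, fun b hb => ?_⟩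
  · obtain ⟨η, h1, h2⟩ := exists_between (max_lt ha zero_lt_one)
    have hη : 0 < η := lt_of_le_of_lt (le_max_right _ _) h1
    have haη : a < η := lt_of_le_of_lt (le_max_left _ _) h1
    have h3 := (L1 S hη).comp hg
    filter_upwards [(tendsto_order.1 h3).1 a haη, hg.eventually (eventually_ge_atTop 2)]
      with N h4 h5
    refine lt_of_lt_of_le h4 ?_
    have h6 : 0 < RR (S.g N) := RR_pos h5
    simp only [Function.comp]
    gcongr
    exact cN_le S N h2
  · have h3 := (L1 S one_pos).comp hg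
    filter_upwards [(tendsto_order.1 h3).2 b hb, hg.eventually (eventually_ge_atTop 2)]
      with N h4 h5
    refine lt_of_le_of_lt ?_ h4
    have h6 : 0 < RR (S.g N) := RR_pos h5
    simp only [Function.comp, one_mul]
    gcongr
    exact (lt_cN S N).le

theorem L2' (S : Sq) : Tendsto (fun N : ℕ => RR (S.g N) / (N : ℝ)) atTop (𝓝 1) := by
  have := (L2 S).inv₀ one_ne_zero
  simpa [inv_div] using this

theorem NT (S : Sq) {T : ℝ} (hT : 2 ≤ T) : S.N T = S.cN T := by
  unfold Sq.N
  rw [if_neg (not_lt.2 hT)]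

theorem gp_eq (S : Sq) (T s : ℝ) : gp (S.x T) s =
    (Fin.val '' {i : Fin (S.N T) | ∀ j : Fin (S.N T), i < j → S.x T i + s < S.x T j}).ncard := by
  rw [Set.ncard_image_of_injective _ Fin.val_injective]
  rfl

theorem fin_set (N : ℕ) (p : ℕ → Prop) : {n : ℕ | n < N ∧ p n}.Finite :=
  (Set.finite_Iio N).subset fun _ h => h.1

/-- the upper bound -/
theorem DC_le (S : Sq) (s : ℝ) (N : ℕ) (hT : 2 ≤ S.g N) : DC S s N ≤ gp (S.x (S.g N)) s := by
  rw [gp_eq]
  refine Set.ncard_le_ncard ?_ (Set.toFinite _)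
  rintro n ⟨hn, hs⟩
  have hlt := lt_cN S N
  have h1 : n < S.N (S.g N) := by rw [NT S hT]; omega
  refine ⟨⟨n, h1⟩, ?_, rfl⟩
  intro j hj
  have hj' : n + 1 ≤ j.val := hj
  have hgm : S.g (n + 1) ≤ S.g j.val := S.mono hj'
  have hgn : S.g n ≤ S.g N := S.mono hn.le
  have hl : Real.log (S.g n / (2 * Real.pi)) ≤ Real.log (S.g N) := by
    refine Real.log_le_log (div_pos (S.pos n) tpp) ?_
    refine (div_le_self (S.pos n).le ?_).trans hgn
    have := Real.pi_gt_three
    linarith
  have hd : 0 ≤ S.g (n + 1) - S.g n := sub_nonneg.2 (S.mono (Nat.le_succ n))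
  have hp := tpp
  have hL : 0 ≤ Real.log (S.g N) / (2 * Real.pi) :=
    div_nonneg (Real.log_nonneg (by linarith)) hp.le
  have e1 : dd S n ≤ (S.g (n + 1) - S.g n) * (Real.log (S.g N) / (2 * Real.pi)) := by
    unfold dd
    rw [div_mul_eq_mul_div, ← mul_div_assoc]
    gcongr
  have e2 : (S.g (n + 1) - S.g n) * (Real.log (S.g N) / (2 * Real.pi)) ≤
      (S.g j.val - S.g n) * (Real.log (S.g N) / (2 * Real.pi)) := by
    gcongr
  unfold Sq.x
  simp only
  nlinarith

/-- the lower bound -/
theorem le_DC (S : Sq) (s s' η q : ℝ) (N : ℕ) (hT : 2 ≤ S.g N) (hη : 0 < η) (hq : 0 < q)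
    (hqs : q * s' = s)
    (hlog : q * Real.log (S.g N) ≤ Real.log (η * S.g N / (2 * Real.pi))) :
    gp (S.x (S.g N)) s' + N ≤ DC S s N + S.cN (η * S.g N) + S.cN (S.g N) := by
  have hlt := lt_cN S N
  have hp := tpp
  have key : gp (S.x (S.g N)) s' ≤ DC S s N + S.cN (η * S.g N) + (S.cN (S.g N) - N) := by
    rw [gp_eq]
    have hsub : Fin.val '' {i : Fin (S.N (S.g N)) | ∀ j : Fin (S.N (S.g N)), i < j →
        S.x (S.g N) i + s' < S.x (S.g N) j} ⊆
        ({n : ℕ | n < N ∧ s < dd S n} ∪ Set.Iio (S.cN (η * S.g N))) ∪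
          Set.Ico N (S.cN (S.g N)) := by
      rintro _ ⟨i, hi, rfl⟩
      by_cases h1 : N ≤ i.val
      · refine Or.inr ⟨h1, ?_⟩
        have h1' := i.isLt
        have h2' := NT S hT
        exact lt_of_lt_of_eq h1' h2'
      · push Not at h1
        refine Or.inl ?_
        by_cases h2 : S.g i.val ≤ η * S.g N
        · exact Or.inr ((S.hc _ _).1 h2)
        · push Not at h2
          refine Or.inl ⟨h1, ?_⟩
          have h3' := NT S hT
          have h3 : i.val + 1 < S.N (S.g N) := by omega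
          have h4 := hi ⟨i.val + 1, h3⟩ (by
            show i.val < i.val + 1
            omega)
          unfold Sq.x at h4
          simp only at h4
          have hd : 0 ≤ S.g (i.val + 1) - S.g i.val := sub_nonneg.2 (S.mono (Nat.le_succ _))
          have hl : q * Real.log (S.g N) ≤ Real.log (S.g i.val / (2 * Real.pi)) := by
            refine hlog.trans (Real.log_le_log ?_ ?_)
            · have := S.pos N
              positivity
            · gcongr
          have e1 : (S.g (i.val + 1) - S.g i.val) * (q * Real.log (S.g N)) / (2 * Real.pi) ≤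
              dd S i.val := by
            unfold dd
            rw [div_mul_eq_mul_div]
            gcongr
          have e2 : (S.g (i.val + 1) - S.g i.val) * (q * Real.log (S.g N)) / (2 * Real.pi) =
              q * ((S.g (i.val + 1) - S.g i.val) * (Real.log (S.g N) / (2 * Real.pi))) := by
            field_simp
          have e3 : s' < (S.g (i.val + 1) - S.g i.val) * (Real.log (S.g N) / (2 * Real.pi)) := by
            nlinarith
          have e4 := mul_lt_mul_of_pos_left e3 hq
          rw [hqs] at e4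
          linarith
    refine (Set.ncard_le_ncard hsub ?_).trans ?_
    · exact ((fin_set N _).union (Set.finite_Iio _)).union (Set.finite_Ico _ _)
    · refine (Set.ncard_union_le _ _).trans ?_
      have h5 : (Set.Ico N (S.cN (S.g N))).ncard = S.cN (S.g N) - N := by
        rw [← Finset.coe_Ico, Set.ncard_coe_finset, Nat.card_Ico]
      have h6 : (Set.Iio (S.cN (η * S.g N))).ncard = S.cN (η * S.g N) := by
        rw [← Finset.coe_Iio, Set.ncard_coe_finset, Nat.card_Iio]
      have h7 := Set.ncard_union_le {n : ℕ | n < N ∧ s < dd S n} (Set.Iio (S.cN (η * S.g N)))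
      rw [h6] at h7
      rw [h5]
      unfold DC
      omega
  omega

theorem claim (S : Sq)
    (hgp : ∀ s : ℝ, 0 ≤ s → Tendsto (fun T => (gp (S.x T) s : ℝ) / RR T) atTop (𝓝 (GG s)))
    (hcont : ContinuousOn GG (Set.Ici 0)) {s : ℝ} (hs : 0 < s) :
    Tendsto (fun N : ℕ => (DC S s N : ℝ) / N) atTop (𝓝 (GG s)) := by
  have hg := tendsto_g S
  have hgN := hg.eventually (eventually_ge_atTop 2)
  refine tendsto_order.2 ⟨fun a ha => ?_, fun b hb => ?_⟩
  · have hca : ContinuousAt GG s := hcont.continuousAt (Ici_mem_nhds hs)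
    obtain ⟨s', h1, h2⟩ := (((hca.eventually (lt_mem_nhds ha)).filter_mono
      (nhdsWithin_le_nhds (s := Set.Ioi s))).and self_mem_nhdsWithin).exists
    have h2' : s < s' := h2
    have hs' : 0 < s' := hs.trans h2'
    set q : ℝ := s / s' with hqdef
    have hq : 0 < q := div_pos hs hs'
    have hq1 : q < 1 := (div_lt_one hs').2 h2'
    have hqs : q * s' = s := by rw [hqdef]; field_simp
    set η : ℝ := (GG s' - a) / 2 with hηdef
    have hη : 0 < η := by rw [hηdef]; linarith
    -- the logarithms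
    have hlog : ∀ᶠ N : ℕ in atTop,
        q * Real.log (S.g N) ≤ Real.log (η * S.g N / (2 * Real.pi)) := by
      have t1 : Tendsto (fun T : ℝ => (1 - q) * Real.log T) atTop atTop :=
        Real.tendsto_log_atTop.const_mul_atTop (by linarith)
      have t2 := t1.comp hg
      filter_upwards [t2.eventually (eventually_ge_atTop (-Real.log (η / (2 * Real.pi)))), hgN]
        with N h3 h4
      simp only [Function.comp] at h3
      have h5 : 0 < S.g N := S.pos N
      have h6 : η * S.g N / (2 * Real.pi) = η / (2 * Real.pi) * S.g N := by ring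
      have h7 := tpp
      rw [h6, Real.log_mul (by positivity) h5.ne']
      linarith
    have l1 : Tendsto (fun N : ℕ => (gp (S.x (S.g N)) s' : ℝ) / RR (S.g N) *
        (RR (S.g N) / N)) atTop (𝓝 (GG s' * 1)) := ((hgp s' hs'.le).comp hg).mul (L2' S)
    have l2 : Tendsto (fun N : ℕ => (S.cN (η * S.g N) : ℝ) / RR (S.g N) *
        (RR (S.g N) / N)) atTop (𝓝 (η * 1)) := ((L1 S hη).comp hg).mul (L2' S)
    have l3 : Tendsto (fun N : ℕ => (S.cN (1 * S.g N) : ℝ) / RR (S.g N) *
        (RR (S.g N) / N)) atTop (𝓝 (1 * 1)) := ((L1 S one_pos).comp hg).mul (L2' S)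
    have l4 := (l1.sub l2).sub (l3.sub_const 1)
    have hlim : GG s' * 1 - η * 1 - (1 * 1 - 1) = GG s' - η := by ring
    rw [hlim] at l4
    have haa : a < GG s' - η := by rw [hηdef]; linarith
    filter_upwards [(tendsto_order.1 l4).1 a haa, hgN, hlog, eventually_gt_atTop 0]
      with N h3 h4 h5 h6
    refine lt_of_lt_of_le h3 ?_
    have h7 : 0 < RR (S.g N) := RR_pos h4
    have h8 : (0 : ℝ) < N := by exact_mod_cast h6
    have h9 := le_DC S s s' η q N h4 hη hq hqs h5
    have h9' : (gp (S.x (S.g N)) s' : ℝ) + N ≤ DC S s N + S.cN (η * S.g N) + S.cN (S.g N) := by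
      exact_mod_cast h9
    have c1 : ∀ z : ℝ, z / RR (S.g N) * (RR (S.g N) / N) = z / N := by
      intro z
      field_simp
    rw [c1, c1, c1, one_mul]
    have c2 : (gp (S.x (S.g N)) s' : ℝ) / N - (S.cN (η * S.g N) : ℝ) / N -
        ((S.cN (S.g N) : ℝ) / N - 1) =
        ((gp (S.x (S.g N)) s' : ℝ) + N - S.cN (η * S.g N) - S.cN (S.g N)) / N := by
      field_simp
      ring
    rw [c2]
    gcongr
    linarith
  · have l1 : Tendsto (fun N : ℕ => (gp (S.x (S.g N)) s : ℝ) / RR (S.g N) *
        (RR (S.g N) / N)) atTop (𝓝 (GG s * 1)) := ((hgp s hs.le).comp hg).mul (L2' S)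
    rw [mul_one] at l1
    filter_upwards [(tendsto_order.1 l1).2 b hb, hgN, eventually_gt_atTop 0] with N h3 h4 h6
    refine lt_of_le_of_lt ?_ h3
    have h7 : 0 < RR (S.g N) := RR_pos h4
    have h8 : (0 : ℝ) < N := by exact_mod_cast h6
    have c1 : ∀ z : ℝ, z / RR (S.g N) * (RR (S.g N) / N) = z / N := by
      intro z
      field_simp
    rw [c1]
    gcongr
    exact DC_le S s N h4

theorem t_GAPZ : S_GAPZ := by
  intro S hgp hcont α β hα hαβ
  have cl := fun {s : ℝ} (hs : 0 < s) => claim S hgp hcont hs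
  set E1 : ℕ → ℕ := fun N => {n : ℕ | n < N ∧ α ≤ dd S n}.ncard with hE1
  -- the gaps `≥ α`
  have h1 : Tendsto (fun N : ℕ => (E1 N : ℝ) / N) atTop (𝓝 (GG α)) := by
    have hca : ContinuousAt GG α := hcont.continuousAt (Ici_mem_nhds hα)
    refine tendsto_order.2 ⟨fun a ha => ?_, fun b hb => ?_⟩
    · filter_upwards [(tendsto_order.1 (cl hα)).1 a ha] with N h2
      refine lt_of_lt_of_le h2 ?_
      have h3 : DC S α N ≤ E1 N :=
        Set.ncard_le_ncard (fun n hn => ⟨hn.1, hn.2.le⟩) (fin_set N _)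
      gcongr
    · obtain ⟨α', h2, h3, h4⟩ := (((hca.eventually (gt_mem_nhds hb)).filter_mono
        (nhdsWithin_le_nhds (s := Set.Iio α))).and
        ((eventually_mem_set.2 self_mem_nhdsWithin).and
          (eventually_mem_set.2 (nhdsWithin_le_nhds (Ioi_mem_nhds hα))))).exists
      have h3' : α' < α := h3
      filter_upwards [(tendsto_order.1 (cl (s := α') h4)).2 b h2] with N h5
      refine lt_of_le_of_lt ?_ h5
      have h6 : E1 N ≤ DC S α' N :=
        Set.ncard_le_ncard (fun n hn => ⟨hn.1, lt_of_lt_of_le h3' hn.2⟩) (fin_set N _)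
      gcongr
  have h2 := h1.sub (cl (hα.trans hαβ))
  refine h2.congr fun N => ?_
  have h3 : {n : ℕ | n < N ∧ α ≤ dd S n ∧ dd S n ≤ β}.ncard + DC S β N = E1 N := by
    unfold DC
    rw [hE1, ← Set.ncard_union_eq ?_ (fin_set N _) (fin_set N _)]
    · congr 1
      ext n
      simp only [Set.mem_union, Set.mem_ofPred_eq]
      constructor
      · rintro (⟨a, b, _⟩ | ⟨a, b⟩)
        · exact ⟨a, b⟩
        · exact ⟨a, (hαβ.trans b).le⟩
      · rintro ⟨a, b⟩
        rcases le_or_gt (dd S n) β with h | h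
        · exact Or.inl ⟨a, b, h⟩
        · exact Or.inr ⟨a, h⟩
    · rw [Set.disjoint_left]
      rintro n ⟨_, _, h⟩ ⟨_, h'⟩
      exact absurd h (not_le.2 h')
  have h4 : ({n : ℕ | n < N ∧ α ≤ dd S n ∧ dd S n ≤ β}.ncard : ℝ) = E1 N - DC S β N := by
    rw [← h3]
    push_cast
    ring
  show (E1 N : ℝ) / N - (DC S β N : ℝ) / N = _
  rw [← sub_div, ← h4]
  rfl

end Pool.Agent.H632.GU.GAPZ
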